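import Pool.Agent.C621.Stm

/-! Project CY: the abstract linear algebra. -/

set_option autoImplicit false
open Matrix
namespace Pool.CY

/-- vanishes on equal colours -/
def CyCore_off {ι κ : Type} (col : ι → κ) (M : Matrix ι ι ℝ) : Prop :=
  ∀ p p', col p = col p' → M p p' = 0

/-- vanishes on different colours -/
def CyCore_dg {ι κ : Type} (col : ι → κ) (M : Matrix ι ι ℝ) : Prop :=
  ∀ p p', col p ≠ col p' → M p p' = 0

theorem CyCore_off_dg {ι κ : Type} [Fintype ι] {col : ι → κ} {M N : Matrix ι ι ℝ}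
    (hM : CyCore_off col M) (hN : CyCore_dg col N) : CyCore_off col (M * N) := by
  classical
  intro p p' h
  rw [Matrix.mul_apply]
  apply Finset.sum_eq_zero
  intro j _
  by_cases hj : col p = col j
  · rw [hM p j hj, zero_mul]
  · rw [hN j p' (fun e => hj (h.trans e.symm)), mul_zero]

theorem CyCore_dg_dg {ι κ : Type} [Fintype ι] {col : ι → κ} {M N : Matrix ι ι ℝ}
    (hM : CyCore_dg col M) (hN : CyCore_dg col N) : CyCore_dg col (M * N) := by
  classical
  intro p p' h
  rw [Matrix.mul_apply]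
  apply Finset.sum_eq_zero
  intro j _
  by_cases hj : col p = col j
  · rw [hN j p' (fun e => h (hj.trans e)), mul_zero]
  · rw [hM p j hj, zero_mul]

theorem CyCore_trace_off {ι κ : Type} [Fintype ι] {col : ι → κ} {M : Matrix ι ι ℝ}
    (hM : CyCore_off col M) : trace M = 0 := by
  unfold Matrix.trace
  apply Finset.sum_eq_zero
  intro i _
  exact hM i i rfl

theorem CyCore_dg_inv {ι κ : Type} [Fintype ι] [DecidableEq ι] {col : ι → κ} {D G : Matrix ι ι ℝ}
    (hD : CyCore_dg col D) (h1 : D * G = 1) (h2 : G * D = 1) : CyCore_dg col G := by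
  classical
  intro p p' h
  set P : Matrix ι ι ℝ := Matrix.diagonal (fun j => if col j = col p' then (1:ℝ) else 0) with hP
  have hc : P * D = D * P := by
    ext i j
    rw [hP, Matrix.diagonal_mul, Matrix.mul_diagonal]
    by_cases hij : col i = col j
    · rw [hij]; ring
    · rw [hD i j hij]; ring
  have hg : G * P = P * G := by
    calc G * P = G * P * (D * G) := by rw [h1, Matrix.mul_one]
      _ = G * (P * D) * G := by simp only [Matrix.mul_assoc]
      _ = (G * D) * P * G := by rw [hc]; simp only [Matrix.mul_assoc]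
      _ = P * G := by rw [h2, Matrix.one_mul]
  have := congrFun (congrFun hg p) p'
  rw [hP, Matrix.diagonal_mul, Matrix.mul_diagonal, if_pos rfl, if_neg h] at this
  linarith

/-- `tr ((a x b) M) = b M a` -/
theorem CyCore_trace_vmv {ι : Type} [Fintype ι] (a b : ι → ℝ) (M : Matrix ι ι ℝ) :
    trace (vecMulVec a b * M) = (b ᵥ* M) ⬝ᵥ a := by
  rw [Matrix.vecMulVec_mul, Matrix.trace_vecMulVec]
  exact dotProduct_comm _ _

theorem core : core_Stm := by
  intro ι κ _ _ _ col t U U1 W W1 X X1 Ai Bi r0 r1 l0 l1 c c1 e e1 s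
    hA hB hU hU1 hW hW1 hX hX1 hc hc1 he he1 hE hR hL hcc hee hWW hXX hV
  classical
  set A : Matrix ι ι ℝ := 1 + U with hAdef
  set B : Matrix ι ι ℝ := 1 - U1 with hBdef
  have hA' : Ai * A = 1 := mul_eq_one_comm.mp hA
  have hB' : Bi * B = 1 := mul_eq_one_comm.mp hB
  set τ : ℝ := 1 / t with hτ
  set G : Matrix ι ι ℝ := Ai * Bi with hG
  have hD : CyCore_dg col (B * A) := hE
  have hG1 : (B * A) * G = 1 := by
    rw [hG]
    calc B * A * (Ai * Bi) = B * (A * Ai) * Bi := by simp only [Matrix.mul_assoc]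
      _ = 1 := by rw [hA, Matrix.mul_one, hB]
  have hG2 : G * (B * A) = 1 := mul_eq_one_comm.mp hG1
  have hGd : CyCore_dg col G := CyCore_dg_inv hD hG1 hG2
  have hGB : G * B = Ai := by rw [hG, Matrix.mul_assoc, hB', Matrix.mul_one]
  have hAG : A * G = Bi := by rw [hG, ← Matrix.mul_assoc, hA, Matrix.one_mul]
  have hUG : U * G = Bi - G := by
    have : A * G = G + U * G := by rw [hAdef, Matrix.add_mul, Matrix.one_mul]
    rw [← hAG, this]; abel
  have hGU1 : G * U1 = G - Ai := by
    have : G * B = G - G * U1 := by rw [hBdef, Matrix.mul_sub, Matrix.mul_one]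
    rw [← hGB, this]; abel
  have hUo : CyCore_off col U := hU
  have hU1o : CyCore_off col U1 := hU1
  have hWo : CyCore_off col W := hW
  have hW1o : CyCore_off col W1 := hW1
  have hXo : CyCore_off col X := hX
  have hX1o : CyCore_off col X1 := hX1
  set ρ : ℝ := r1 ⬝ᵥ l0 with hρ
  have hBl : Bi *ᵥ l1 = l0 := by rw [← hL, Matrix.mulVec_mulVec, hB', Matrix.one_mulVec]
  have hrG : r0 ᵥ* G = r1 ᵥ* Bi := by rw [← hR, Matrix.vecMul_vecMul, hAG]
  have hrGl : (r0 ᵥ* G) ⬝ᵥ l1 = ρ := by
    rw [hrG, ← Matrix.dotProduct_mulVec, hBl]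
  have hrAi : r0 ᵥ* Ai = r1 := by rw [← hR, Matrix.vecMul_vecMul, hA, Matrix.vecMul_one]
  -- T1
  set C : Matrix ι ι ℝ := τ • vecMulVec l1 r0 + X1 - B * X with hC
  have hCd : CyCore_dg col C := by
    intro p p' h
    have := hXX p p' h
    simp only [hC, Matrix.sub_apply, Matrix.add_apply, Matrix.smul_apply, Matrix.vecMulVec_apply,
      smul_eq_mul]
    rw [this]; ring
  have hBX : B * X = τ • vecMulVec l1 r0 + X1 - C := by rw [hC]; abel
  have t1a : trace (Ai * X) = τ * ρ - trace (C * G) := by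
    have h1 : trace (Ai * X) = trace ((B * X) * G) := by
      rw [← hGB, Matrix.mul_assoc, Matrix.trace_mul_comm]
    rw [h1, hBX, Matrix.sub_mul, Matrix.add_mul, Matrix.trace_sub, Matrix.trace_add,
      Matrix.smul_mul, Matrix.trace_smul, CyCore_trace_vmv, hrGl,
      CyCore_trace_off (CyCore_off_dg hX1o hGd), smul_eq_mul]
    ring
  have t1b : trace (C * G) = τ * (r0 ⬝ᵥ l0) + trace (Bi * X1) := by
    have h0 : trace X = 0 := CyCore_trace_off hXo
    have h1 : X = Bi * (B * X) := by rw [← Matrix.mul_assoc, hB', Matrix.one_mul]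
    have h2 : trace (Bi * vecMulVec l1 r0) = r0 ⬝ᵥ l0 := by
      rw [Matrix.mul_vecMulVec, hBl, Matrix.trace_vecMulVec]
      exact dotProduct_comm _ _
    have h3 : trace (Bi * C) = trace (C * G) := by
      have : Bi * C = G * C + U * (G * C) := by
        have e0 : A * G * C = G * C + U * (G * C) := by
          rw [hAdef]
          simp only [Matrix.add_mul, Matrix.one_mul, Matrix.mul_assoc]
        rw [← e0, hAG]
      rw [this, Matrix.trace_add, CyCore_trace_off (CyCore_off_dg hUo (CyCore_dg_dg hGd hCd)),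
        add_zero, Matrix.trace_mul_comm]
    rw [h1, hBX, Matrix.mul_sub, Matrix.mul_add, Matrix.trace_sub, Matrix.trace_add,
      Matrix.mul_smul, Matrix.trace_smul, h2, h3, smul_eq_mul] at h0
    linarith
  have T1 : trace (Ai * X) = τ * ρ - τ * (r0 ⬝ᵥ l0) - trace (Bi * X1) := by
    rw [t1a, t1b]; ring
  -- the sum over the inserted colours
  have hq : ∀ b, (e b ᵥ* G) ⬝ᵥ c1 b = (e b ᵥ* Ai) ⬝ᵥ c b := by
    intro b
    have h1 : (e b ᵥ* Ai) ⬝ᵥ c b = (e b ᵥ* G) ⬝ᵥ (B *ᵥ c b) := by
      rw [← hGB, ← Matrix.vecMul_vecMul, ← Matrix.dotProduct_mulVec]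
    have h2 : (e b ᵥ* G) ⬝ᵥ c1 b - (e b ᵥ* G) ⬝ᵥ (B *ᵥ c b) = 0 := by
      rw [← dotProduct_sub]
      unfold dotProduct
      apply Finset.sum_eq_zero
      intro p _
      by_cases hp : col p = b
      · have : (e b ᵥ* G) p = 0 := by
          unfold Matrix.vecMul dotProduct
          apply Finset.sum_eq_zero
          intro j _
          show e b j * G j p = 0
          by_cases hj : col j = b
          · rw [he b j hj, zero_mul]
          · rw [hGd j p (fun h => hj (h.trans hp)), mul_zero]
        rw [this, zero_mul]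
      · rw [Pi.sub_apply, hcc b p hp, sub_self, mul_zero]
    rw [h1]; linarith
  have hQ : trace (Ai * Matrix.of (fun p p' => ∑ b, c b p * e b p')) = ∑ b, (e b ᵥ* Ai) ⬝ᵥ c b := by
    have : Matrix.of (fun p p' => ∑ b, c b p * e b p') = ∑ b, vecMulVec (c b) (e b) := by
      ext p p'
      simp only [Matrix.of_apply, Matrix.sum_apply, Matrix.vecMulVec_apply]
    rw [this, Matrix.mul_sum, Matrix.trace_sum]
    apply Finset.sum_congr rfl
    intro b _
    rw [Matrix.trace_mul_comm, CyCore_trace_vmv]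
  -- T2
  have T2 : trace (Ai * Matrix.of (fun p p' => ∑ b, c b p * e b p')) - trace (Ai * W)
      + trace (Bi * X1) = (t + τ + 1) * ρ := by
    have hM : U1 * W + (∑ b, vecMulVec (c1 b) (e b)) + X1 * U =
        Matrix.of (fun p p' => (t + τ + if col p = col p' then 1 else 0) * l1 p * r0 p') := by
      ext p p'
      have := hV p p'
      simp only [Matrix.add_apply, Matrix.of_apply, Matrix.sum_apply, Matrix.vecMulVec_apply]
      rw [← this]
      congr 2
      rw [Finset.mul_sum]
      apply Finset.sum_congr rfl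
      intro b _
      rw [hc1]; ring
    have hVG : trace (Matrix.of (fun p p' => (t + τ + if col p = col p' then (1:ℝ) else 0)
        * l1 p * r0 p') * G) = (t + τ + 1) * ρ := by
      have e0 : trace (((t + τ + 1) • vecMulVec l1 r0) * G) = (t + τ + 1) * ρ := by
        rw [Matrix.smul_mul, Matrix.trace_smul, CyCore_trace_vmv, hrGl, smul_eq_mul]
      rw [← e0]
      unfold Matrix.trace
      apply Finset.sum_congr rfl
      intro p _
      rw [Matrix.diag_apply, Matrix.diag_apply, Matrix.mul_apply, Matrix.mul_apply]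
      apply Finset.sum_congr rfl
      intro j _
      simp only [Matrix.of_apply, Matrix.smul_apply, Matrix.vecMulVec_apply, smul_eq_mul]
      by_cases hj : col p = col j
      · rw [if_pos hj]; ring
      · rw [hGd j p (fun h => hj h.symm)]; ring
    rw [← hM, Matrix.add_mul, Matrix.add_mul, Matrix.trace_add, Matrix.trace_add] at hVG
    have a1 : trace (U1 * W * G) = - trace (Ai * W) := by
      rw [Matrix.mul_assoc, Matrix.trace_mul_comm, Matrix.mul_assoc, hGU1, Matrix.mul_sub,
        Matrix.trace_sub, CyCore_trace_off (CyCore_off_dg hWo hGd), zero_sub,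
        Matrix.trace_mul_comm]
    have a2 : trace (X1 * U * G) = trace (Bi * X1) := by
      rw [Matrix.mul_assoc, hUG, Matrix.mul_sub, Matrix.trace_sub,
        CyCore_trace_off (CyCore_off_dg hX1o hGd), sub_zero, Matrix.trace_mul_comm]
    have a3 : trace ((∑ b, vecMulVec (c1 b) (e b)) * G) =
        trace (Ai * Matrix.of (fun p p' => ∑ b, c b p * e b p')) := by
      rw [hQ, Matrix.sum_mul, Matrix.trace_sum]
      apply Finset.sum_congr rfl
      intro b _
      rw [CyCore_trace_vmv, hq]
    rw [a1, a2, a3] at hVG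
    linarith
  -- T3
  set C2 : Matrix ι ι ℝ := t • vecMulVec l1 r0 + W1 * A - W with hC2
  have hC2d : CyCore_dg col C2 := by
    intro p p' h
    have := hWW p p' h
    simp only [hC2, Matrix.sub_apply, Matrix.add_apply, Matrix.smul_apply, Matrix.vecMulVec_apply,
      smul_eq_mul]
    rw [this]; ring
  have hWeq : W = t • vecMulVec l1 r0 + W1 * A - C2 := by rw [hC2]; abel
  have T3 : trace (Ai * W) + trace (Bi * W1) = t * (r1 ⬝ᵥ l1) - t * ρ := by
    have h1 : trace (C2 * Ai) = trace (C2 * G) := by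
      rw [← hGB, hBdef, Matrix.mul_sub, Matrix.mul_one, Matrix.mul_sub, Matrix.trace_sub]
      have : trace (C2 * (G * U1)) = 0 := by
        rw [← Matrix.mul_assoc, Matrix.trace_mul_comm]
        exact CyCore_trace_off (CyCore_off_dg hU1o (CyCore_dg_dg hC2d hGd))
      rw [this, sub_zero]
    have h2 : trace (Ai * W) = t * (r1 ⬝ᵥ l1) - trace (C2 * G) := by
      rw [Matrix.trace_mul_comm]
      conv_lhs => rw [hWeq]
      rw [Matrix.sub_mul, Matrix.add_mul, Matrix.trace_sub, Matrix.trace_add, h1,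
        Matrix.smul_mul, Matrix.trace_smul, CyCore_trace_vmv, hrAi, Matrix.mul_assoc, hA,
        Matrix.mul_one, CyCore_trace_off hW1o, smul_eq_mul]
      ring
    have h3 : trace (C2 * G) = t * ρ + trace (Bi * W1) := by
      have h0 : trace (W * G) = 0 := CyCore_trace_off (CyCore_off_dg hWo hGd)
      rw [hWeq, Matrix.sub_mul, Matrix.add_mul, Matrix.trace_sub, Matrix.trace_add,
        Matrix.smul_mul, Matrix.trace_smul, CyCore_trace_vmv, hrGl, Matrix.mul_assoc, hAG,
        smul_eq_mul, Matrix.trace_mul_comm W1] at h0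
      linarith
    rw [h2, h3]; ring
  -- T4
  have T4 : trace (Bi * Matrix.of (fun p p' => ∑ b, c1 b p * e1 b p')) =
      trace (Ai * Matrix.of (fun p p' => ∑ b, c b p * e b p')) := by
    have : Matrix.of (fun p p' => ∑ b, c1 b p * e1 b p') = ∑ b, vecMulVec (c1 b) (e1 b) := by
      ext p p'
      simp only [Matrix.of_apply, Matrix.sum_apply, Matrix.vecMulVec_apply]
    rw [hQ, this, Matrix.mul_sum, Matrix.trace_sum]
    apply Finset.sum_congr rfl
    intro b _
    have e0 : (e1 b ᵥ* Bi) ⬝ᵥ c1 b = (e1 b ᵥ* A) ⬝ᵥ (G *ᵥ c1 b) := by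
      rw [← hAG, ← Matrix.vecMul_vecMul, ← Matrix.dotProduct_mulVec]
    have e2 : (e b ᵥ* G) ⬝ᵥ c1 b = e b ⬝ᵥ (G *ᵥ c1 b) := by
      rw [← Matrix.dotProduct_mulVec]
    rw [← hq, Matrix.trace_mul_comm, CyCore_trace_vmv, e0, e2]
    have : (e1 b ᵥ* A) ⬝ᵥ (G *ᵥ c1 b) - e b ⬝ᵥ (G *ᵥ c1 b) = 0 := by
      rw [← sub_dotProduct]
      unfold dotProduct
      apply Finset.sum_eq_zero
      intro p _
      by_cases hp : col p = b
      · have : (G *ᵥ c1 b) p = 0 := by
          unfold Matrix.mulVec dotProduct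
          apply Finset.sum_eq_zero
          intro j _
          show G p j * c1 b j = 0
          by_cases hj : col j = b
          · rw [hc1, hc b j hj, mul_zero, mul_zero]
          · rw [hGd p j (fun h => hj (h.symm.trans hp)), zero_mul]
        rw [this, mul_zero]
      · rw [Pi.sub_apply, hee b p hp, sub_self, zero_mul]
    linarith
  constructor
  · rw [Matrix.mul_sub, Matrix.mul_sub, Matrix.trace_sub, Matrix.trace_sub, T1]
    linarith
  · rw [Matrix.mul_add, Matrix.trace_add, T4]
    linarith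

end Pool.CY
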