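import Pool.Agent.C621.Stm

/-! Project CY: the identity for the sum over the middle letter. -/

set_option autoImplicit false

namespace Pool.CY

theorem CyDEq_glast {α : Type} {t : ℝ} (h0 : 0 < t) (h1 : t < 1) (x : Option α) (w : List α)
    (y : Option α) (hok : okw x w y) :
    ssum w (fun u _ v => t ^ v.length * g t x (u ++ v) y) = (1 - t ^ w.length) * g t x w y := by
  rcases eq_or_ne w [] with rfl | h
  · simp [ssum]
  · exact (g_last h0 h1 x w y h hok).symm

/-- the third term, for equal barriers -/
noncomputable def CyDEq_s3 {α : Type} (t : ℝ) (a c : α) (u v : List α) : ℝ :=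
  t ^ u.length * g t (some a) u none * g t none v (some c) / (1 - t ^ (u.length + v.length + 1))

open Classical in
theorem CyDEq_s3_last {α : Type} {t : ℝ} (h0 : 0 < t) (h1 : t < 1) (a c : α) (u v : List α)
    (hu : okw (some a) u none) (hv : okw none v (some c)) :
    (1 - t ^ (u.length + v.length + 1)) * CyDEq_s3 t a c u v =
      ssum u (fun u1 _ u2 => t ^ (u2.length + v.length + 1) * CyDEq_s3 t a c (u1 ++ u2) v)
      + ssum v (fun v1 _ v2 => t ^ v2.length * CyDEq_s3 t a c u (v1 ++ v2))
      + (if u = [] ∧ v = [] then 1 else 0) := by
  have e1 : ssum u (fun u1 _ u2 => t ^ (u2.length + v.length + 1) * CyDEq_s3 t a c (u1 ++ u2) v) =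
      (t ^ (u.length + v.length) * g t none v (some c) / (1 - t ^ (u.length + v.length))) *
        ((1 - t ^ u.length) * g t (some a) u none) := by
    rw [← CyDEq_glast h0 h1 (some a) u none hu, ← ssum_mul]
    apply ssum_congr
    intro u1 j u2 e
    have hm : u.length = (u1 ++ u2).length + 1 := by
      rw [e]
      simp
      omega
    have hm2 : (u1 ++ u2).length + 1 + v.length = (u1 ++ u2).length + v.length + 1 := by omega
    rw [hm, hm2]
    unfold CyDEq_s3
    ring
  have e2 : ssum v (fun v1 _ v2 => t ^ v2.length * CyDEq_s3 t a c u (v1 ++ v2)) =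
      (t ^ u.length * g t (some a) u none / (1 - t ^ (u.length + v.length))) *
        ((1 - t ^ v.length) * g t none v (some c)) := by
    rw [← CyDEq_glast h0 h1 none v (some c) hv, ← ssum_mul]
    apply ssum_congr
    intro v1 j v2 e
    have hm : v.length = (v1 ++ v2).length + 1 := by
      rw [e]
      simp
      omega
    have hm2 : u.length + ((v1 ++ v2).length + 1) = u.length + (v1 ++ v2).length + 1 := by omega
    rw [hm, hm2]
    unfold CyDEq_s3
    ring
  rw [e1, e2]
  have hD := one_sub_pow_ne h0 h1 (u.length + v.length + 1) (by omega)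
  have e3 : (1 - t ^ (u.length + v.length + 1)) * CyDEq_s3 t a c u v =
      t ^ u.length * g t (some a) u none * g t none v (some c) := by
    unfold CyDEq_s3
    rw [mul_div_cancel₀ _ hD]
  rw [e3]
  by_cases h : u.length + v.length = 0
  · have hu0 : u = [] := List.length_eq_zero_iff.1 (by omega)
    have hv0 : v = [] := List.length_eq_zero_iff.1 (by omega)
    subst hu0
    subst hv0
    simp [g_nil]
  · rw [if_neg]
    · have hD2 := one_sub_pow_ne h0 h1 (u.length + v.length) h
      field_simp
      ring
    · rintro ⟨rfl, rfl⟩
      exact h rfl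

open Classical in
theorem d_eq (h1 : s1_last_Stm) (h2 : s1_bad_Stm) (h3 : s2_last_Stm) (h4 : s2_bad_Stm)
    (h5 : d_last_Stm) (h6 : d_bad_Stm) : d_eq_Stm := by
  intro α _ t ht0 ht1 hq a c
  have key : ∀ (n : ℕ) (u v : List α), u.length + v.length = n →
      ∑ b : α, g t (some a) (u ++ b :: v) (some c) = s1 t a c u v + s2 t a c u v +
        (if a = c then CyDEq_s3 t a c u v else 0) := by
    intro n
    induction n using Nat.strong_induction_on with
    | _ n ih =>
      intro u v hn
      by_cases hok : okw (some a) u none ∧ okw none v (some c)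
      · obtain ⟨hu, hv⟩ := hok
        have hD := one_sub_pow_ne ht0 ht1 (u.length + v.length + 1) (by omega)
        apply mul_left_cancel₀ hD
        rw [h5 α ht0 ht1 hq a c u v hu hv, mul_add, mul_add, h1 α ht0 ht1 a c u v hu hv,
          h3 α ht0 ht1 a c u v hu hv]
        have e1 : ssum u (fun u1 _ u2 => t ^ (u2.length + v.length + 1) *
            ∑ b : α, g t (some a) ((u1 ++ u2) ++ b :: v) (some c)) =
            ssum u (fun u1 _ u2 => t ^ (u2.length + v.length + 1) * s1 t a c (u1 ++ u2) v) +
            ssum u (fun u1 _ u2 => t ^ (u2.length + v.length + 1) * s2 t a c (u1 ++ u2) v) +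
            ssum u (fun u1 _ u2 => t ^ (u2.length + v.length + 1) *
              (if a = c then CyDEq_s3 t a c (u1 ++ u2) v else 0)) := by
          rw [← ssum_add, ← ssum_add]
          apply ssum_congr
          intro u1 j u2 e
          have hm : u.length = (u1 ++ u2).length + 1 := by
            rw [e]
            simp
            omega
          rw [ih ((u1 ++ u2).length + v.length) (by omega) (u1 ++ u2) v rfl]
          ring
        have e2 : ssum v (fun v1 _ v2 => t ^ v2.length *
            ∑ b : α, g t (some a) (u ++ b :: (v1 ++ v2)) (some c)) =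
            ssum v (fun v1 _ v2 => t ^ v2.length * s1 t a c u (v1 ++ v2)) +
            ssum v (fun v1 _ v2 => t ^ v2.length * s2 t a c u (v1 ++ v2)) +
            ssum v (fun v1 _ v2 => t ^ v2.length *
              (if a = c then CyDEq_s3 t a c u (v1 ++ v2) else 0)) := by
          rw [← ssum_add, ← ssum_add]
          apply ssum_congr
          intro v1 j v2 e
          have hm : v.length = (v1 ++ v2).length + 1 := by
            rw [e]
            simp
            omega
          rw [ih (u.length + (v1 ++ v2).length) (by omega) u (v1 ++ v2) rfl]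
          ring
        rw [e1, e2]
        by_cases hac : a = c
        · simp only [if_pos hac]
          have e3 := CyDEq_s3_last ht0 ht1 a c u v hu hv
          rw [e3]
          have e4 : (if u = [] ∧ v = [] ∧ a = c then (1 : ℝ) else 0) =
              (if u = [] ∧ v = [] then (1 : ℝ) else 0) := by
            simp [hac]
          rw [e4]
          ring
        · simp only [if_neg hac, mul_zero, ssum_zero]
          have e4 : (if u = [] ∧ v = [] ∧ a = c then (1 : ℝ) else 0) = 0 := by
            simp [hac]
          rw [e4]
          ring
      · rw [h6 α t a c u v hok, h2 α ht0 ht1 a c u v hok, h4 α ht0 ht1 a c u v hok]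
        have e3 : CyDEq_s3 t a c u v = 0 := by
          unfold CyDEq_s3
          by_cases hu : okw (some a) u none
          · have hv : ¬ okw none v (some c) := fun hv => hok ⟨hu, hv⟩
            rw [g_bad t none v (some c) hv, mul_zero, zero_div]
          · rw [g_bad t (some a) u none hu, mul_zero, zero_mul, zero_div]
        rw [e3]
        simp
  intro u v
  exact key _ u v rfl

end Pool.CY
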