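import Pool.Agent.C621.Stm

/-! Project CY: non-negativity of the insertion weights and invariance under permutations. -/

set_option autoImplicit false

namespace Pool.CY

theorem CyGMisc_gf_nonneg {α : Type} {t : ℝ} (h0 : 0 < t) (h1 : t < 1) (n : ℕ) :
    ∀ (x : Option α) (w : List α) (y : Option α), 0 ≤ gf t n x w y := by
  induction n with
  | zero =>
    intro x w y
    simp only [gf]
    exact zero_le_one
  | succ n ih =>
    intro x w y
    simp only [gf]
    split_ifs
    · apply div_nonneg
      · apply ssum_nonneg
        intro u j v _
        exact mul_nonneg (pow_nonneg h0.le _) (ih _ _ _)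
      · have h2 : t ^ (n + 1) < 1 := pow_lt_one₀ h0.le h1 (Nat.succ_ne_zero n)
        linarith
    · exact le_rfl

theorem g_nonneg : g_nonneg_Stm := by
  intro α t h0 h1 x w y
  exact CyGMisc_gf_nonneg h0 h1 _ x w y

theorem CyGMisc_ssum_map {α : Type} (s : α → α) (w : List α) :
    ∀ f : List α → α → List α → ℝ,
      ssum (w.map s) f = ssum w (fun u j v => f (u.map s) (s j) (v.map s)) := by
  induction w with
  | nil => intro f; rfl
  | cons a w ih =>
    intro f
    simp only [List.map_cons, ssum]
    rw [ih]
    rfl

theorem CyGMisc_okw_map {α : Type} (s : Equiv.Perm α) (x : Option α) (w : List α)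
    (y : Option α) : okw (x.map s) (w.map s) (y.map s) ↔ okw x w y := by
  unfold okw
  have e : (x.map s).toList ++ w.map s ++ (y.map s).toList =
      (x.toList ++ w ++ y.toList).map s := by
    rw [List.map_append, List.map_append]
    congr 1
    · congr 1
      cases x <;> rfl
    · cases y <;> rfl
  rw [e, List.isChain_map, List.map_eq_nil_iff]
  simp only [ne_eq, EmbeddingLike.apply_eq_iff_eq]

theorem CyGMisc_gf_map {α : Type} (t : ℝ) (s : Equiv.Perm α) (n : ℕ) :
    ∀ (x : Option α) (w : List α) (y : Option α),
      gf t n (x.map s) (w.map s) (y.map s) = gf t n x w y := by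
  induction n with
  | zero =>
    intro x w y
    simp only [gf]
  | succ n ih =>
    intro x w y
    simp only [gf]
    by_cases h : okw x w y
    · rw [if_pos h, if_pos ((CyGMisc_okw_map s x w y).2 h), CyGMisc_ssum_map]
      congr 1
      apply ssum_congr
      intro u j v _
      rw [List.length_map, ← List.map_append, ih]
    · rw [if_neg h, if_neg (fun h' => h ((CyGMisc_okw_map s x w y).1 h'))]

theorem g_map : g_map_Stm := by
  intro α t σ x w y
  unfold g
  rw [List.length_map]
  exact CyGMisc_gf_map t σ _ x w y

end Pool.CY
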