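import Pool.Agent.C621.StmC

/-! Project CY: part CyGap. -/

set_option autoImplicit false

namespace Pool.CY

theorem exists_gap : exists_gap_Stm := by
  intro n hn A B hA hB h
  obtain ⟨m, rfl⟩ : ∃ m, n = m + 2 := ⟨n - 2, by omega⟩
  by_contra hcon
  push Not at hcon
  obtain ⟨a, ha⟩ := hA
  obtain ⟨b, hb⟩ := hB
  have hstep : ∀ j : Fin (m + 2), j ∈ A → j + 1 ∈ A := by
    intro j hj
    by_contra h1
    have h2 : j + 1 ∈ B := hcon _ h1
    have h3 := h j hj _ h2
    have hadj : (SimpleGraph.cycleGraph (m + 2)).Adj j (j + 1) := by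
      rw [SimpleGraph.cycleGraph_adj]
      right
      simp
    rw [SimpleGraph.dist_eq_one_iff_adj.2 hadj] at h3
    exact absurd h3 (lt_irrefl 1)
  have hall : ∀ k : ℕ, Fin.ofNat (m + 2) (a.val + k) ∈ A := by
    intro k
    induction k with
    | zero =>
      have : Fin.ofNat (m + 2) (a.val + 0) = a := by
        ext; simp
      rw [this]; exact ha
    | succ k ih =>
      have h1 := hstep _ ih
      have h2 : Fin.ofNat (m + 2) (a.val + (k + 1)) = Fin.ofNat (m + 2) (a.val + k) + 1 := by
        ext
        simp [Fin.val_add, ← add_assoc]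
      rw [h2]; exact h1
  have hbA : b ∈ A := by
    have h1 := hall (b.val + (m + 2) - a.val)
    have h2 : Fin.ofNat (m + 2) (a.val + (b.val + (m + 2) - a.val)) = b := by
      ext
      have h3 : a.val + (b.val + (m + 2) - a.val) = b.val + (m + 2) := by
        have := a.isLt; omega
      rw [h3]
      simp [Nat.mod_eq_of_lt b.isLt]
    rw [h2] at h1; exact h1
  have := h b hbA b hb
  rw [SimpleGraph.dist_self] at this
  exact absurd this (by norm_num)

theorem isDep_mono : isDep_mono_Stm := by
  intro n q k k' hk T h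
  obtain ⟨h1, h2, h3, h4, h5⟩ := h
  exact ⟨h1, h2, h3, h4, fun A B hAB => h5 A B fun a ha b hb => lt_of_le_of_lt hk (hAB a ha b hb)⟩

end Pool.CY
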