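import Pool.Agent.C621.Stm

/-! Project CY: powers of the arc matrices and geometric sums. -/

set_option autoImplicit false

namespace Pool.CY

theorem CyGeo_entry {α : Type} (t : ℝ) (x : List α) (p p' : Fin x.length) :
    U1 t x p p' = t ^ (((p' : ℕ) : ℤ) - ((p : ℕ) : ℤ) - 1) * U t x p p' := by
  unfold U1
  by_cases h : (p : ℕ) < p'
  · congr 1
    rw [← zpow_natCast]
    congr 1
    omega
  · have h0 : U t x p p' = 0 := by
      unfold U
      rw [if_neg h]
    rw [h0, mul_zero, mul_zero]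

theorem CyGeo_pow {α : Type} (t : ℝ) (ht : t ≠ 0) (x : List α) (s : ℕ) (p p' : Fin x.length) :
    (U1 t x ^ s) p p' = t ^ (((p' : ℕ) : ℤ) - ((p : ℕ) : ℤ) - (s : ℤ)) * (U t x ^ s) p p' := by
  induction s generalizing p' with
  | zero =>
    rw [pow_zero, pow_zero]
    by_cases h : p = p'
    · subst h
      simp
    · rw [Matrix.one_apply_ne h, mul_zero]
  | succ s ih =>
    rw [pow_succ, pow_succ, Matrix.mul_apply, Matrix.mul_apply, Finset.mul_sum]
    refine Finset.sum_congr rfl fun q _ => ?_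
    rw [ih, CyGeo_entry t]
    have h1 : t ^ (((p' : ℕ) : ℤ) - ((p : ℕ) : ℤ) - ((s + 1 : ℕ) : ℤ)) =
        t ^ (((q : ℕ) : ℤ) - ((p : ℕ) : ℤ) - (s : ℤ)) *
          t ^ (((p' : ℕ) : ℤ) - ((q : ℕ) : ℤ) - 1) := by
      rw [← zpow_add₀ ht]
      congr 1
      push_cast
      ring
    rw [h1]
    ring

theorem geo {α : Type} (t : ℝ) (ht : t ≠ 0) (x : List α) (s : ℕ)
    (M : Matrix (Fin x.length) (Fin x.length) ℝ) (m : ℕ) :
    Matrix.trace (U1 t x ^ s * Matrix.of (fun p p' : Fin x.length =>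
      t ^ ((m:ℤ) - (p:ℤ) + (p':ℤ)) * M p p')) =
    t ^ ((m:ℤ) - s) * Matrix.trace (U t x ^ s * M) := by
  rw [Matrix.trace, Matrix.trace, Finset.mul_sum]
  refine Finset.sum_congr rfl fun p _ => ?_
  rw [Matrix.diag_apply, Matrix.diag_apply, Matrix.mul_apply, Matrix.mul_apply, Finset.mul_sum]
  refine Finset.sum_congr rfl fun q _ => ?_
  rw [CyGeo_pow t ht, Matrix.of_apply]
  have h1 : t ^ ((m : ℤ) - (s : ℤ)) =
      t ^ (((q : ℕ) : ℤ) - ((p : ℕ) : ℤ) - (s : ℤ)) *
        t ^ ((m : ℤ) - ((q : ℕ) : ℤ) + ((p : ℕ) : ℤ)) := by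
    rw [← zpow_add₀ ht]
    congr 1
    ring
  rw [h1]
  ring

theorem inv1 {α : Type} (t : ℝ) (x : List α) (hU : U t x ^ x.length = 0) :
    (1 + U t x) * (∑ s ∈ Finset.range x.length, (-1) ^ s • U t x ^ s) = 1 := by
  have h := mul_neg_geom_sum (-(U t x)) x.length
  have h2 : (-(U t x)) ^ x.length = 0 := by
    rw [neg_pow, hU, mul_zero]
  rw [h2, sub_zero, sub_neg_eq_add] at h
  refine Eq.trans ?_ h
  congr 1
  refine Finset.sum_congr rfl fun s _ => ?_
  rcases Nat.even_or_odd s with hs | hs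
  · rw [hs.neg_one_pow, one_smul, hs.neg_pow]
  · rw [hs.neg_one_pow, neg_smul, one_smul, hs.neg_pow]

/-- the same with real signs -/
theorem CyGeo_inv1R {α : Type} (t : ℝ) (x : List α) (hU : U t x ^ x.length = 0) :
    (1 + U t x) * (∑ s ∈ Finset.range x.length, (-1 : ℝ) ^ s • U t x ^ s) = 1 := by
  refine Eq.trans ?_ (inv1 t x hU)
  refine congrArg (fun A => (1 + U t x) * A) ?_
  refine Finset.sum_congr rfl fun s _ => ?_
  rcases Nat.even_or_odd s with hs | hs
  · rw [hs.neg_one_pow, hs.neg_one_pow, one_smul, one_smul]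
  · rw [hs.neg_one_pow, hs.neg_one_pow, neg_smul, one_smul, neg_smul, one_smul]

theorem inv2 {α : Type} (t : ℝ) (x : List α) (h : U1 t x ^ x.length = 0) :
    (1 - U1 t x) * (∑ s ∈ Finset.range x.length, U1 t x ^ s) = 1 := by
  rw [mul_neg_geom_sum, h, sub_zero]

theorem CyGeo_tri {α : Type} (t : ℝ) (x : List α) (s : ℕ) (p p' : Fin x.length)
    (h : (p' : ℕ) < p + s) : (U1 t x ^ s) p p' = 0 := by
  induction s generalizing p' with
  | zero =>
    rw [pow_zero, Matrix.one_apply_ne]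
    intro h1
    rw [h1] at h
    omega
  | succ s ih =>
    rw [pow_succ, Matrix.mul_apply]
    refine Finset.sum_eq_zero fun q _ => ?_
    by_cases hq : (q : ℕ) < p + s
    · rw [ih q hq, zero_mul]
    · have h1 : ¬ (q : ℕ) < p' := by omega
      have h2 : U1 t x q p' = 0 := by
        unfold U1 U
        rw [if_neg h1, mul_zero]
      rw [h2, mul_zero]

theorem U1_pow_zero {α : Type} (t : ℝ) (x : List α) : U1 t x ^ x.length = 0 := by
  ext p p'
  rw [CyGeo_tri t x x.length p p' (by have := p'.2; omega)]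
  rfl

end Pool.CY
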