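import Pool.Agent.C621.StmC

/-! Project CY: from the interface `HasCyc` to `IsDep` (part CyIsDep, by helper970). -/

set_option autoImplicit false

namespace Pool.CY

open Classical in
theorem CyIsDep_sum_snoc (q N : ℕ) (F : (Fin (N + 1) → Fin q) → ℝ) :
    ∑ x, F x = ∑ w : Fin N → Fin q, ∑ b : Fin q, F (Fin.snoc (α := fun _ => Fin q) w b) := by
  rw [Finset.sum_comm]
  rw [← Fintype.sum_prod_type' (f := fun (b : Fin q) (w : Fin N → Fin q) =>
    F (Fin.snoc (α := fun _ => Fin q) w b))]
  symm
  exact Fintype.sum_equiv (Fin.snocEquiv (fun _ : Fin (N + 1) => Fin q)) _ _ (fun p => rfl)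

open Classical in
theorem CyIsDep_sum_cons (q N : ℕ) (F : (Fin (N + 1) → Fin q) → ℝ) :
    ∑ x, F x = ∑ w : Fin N → Fin q, ∑ b : Fin q, F (Fin.cons (α := fun _ => Fin q) b w) := by
  rw [Finset.sum_comm]
  rw [← Fintype.sum_prod_type' (f := fun (b : Fin q) (w : Fin N → Fin q) =>
    F (Fin.cons (α := fun _ => Fin q) b w))]
  symm
  exact Fintype.sum_equiv (Fin.consEquiv (fun _ : Fin (N + 1) => Fin q)) _ _ (fun p => rfl)

theorem CyIsDep_ofFn_snoc (q N : ℕ) (w : Fin N → Fin q) (b : Fin q) :
    List.ofFn (Fin.snoc (α := fun _ => Fin q) w b) = List.ofFn w ++ [b] := by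
  rw [List.ofFn_succ', List.concat_eq_append]
  simp

theorem CyIsDep_ofFn_cons (q N : ℕ) (w : Fin N → Fin q) (b : Fin q) :
    List.ofFn (Fin.cons (α := fun _ => Fin q) b w) = b :: List.ofFn w := by
  rw [List.ofFn_succ]
  simp

/-- the total mass of the path weights is positive -/
theorem CyIsDep_pathpos (q : ℕ) (B : List (Fin q) → ℝ) (C : ℕ → ℕ → ℝ) (hB1 : B [] = 1)
    (hC : ∀ k l, 0 < C k l)
    (hB : ∀ u v, ∑ b, B (u ++ b :: v) = C u.length v.length * (B u * B v)) :
    ∀ N : ℕ, 0 < ∑ w : Fin N → Fin q, B (List.ofFn w)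
  | 0 => by simp [hB1]
  | N + 1 => by
    rw [CyIsDep_sum_cons q N]
    have h : ∀ w : Fin N → Fin q, ∑ b : Fin q, B (List.ofFn (Fin.cons (α := fun _ => Fin q) b w))
        = C 0 N * B (List.ofFn w) := by
      intro w
      have := hB [] (List.ofFn w)
      simp only [List.nil_append, List.length_nil, List.length_ofFn, hB1, one_mul] at this
      rw [← this]
      exact Finset.sum_congr rfl (fun b _ => by rw [CyIsDep_ofFn_cons])
    rw [Finset.sum_congr rfl (fun w _ => h w), ← Finset.mul_sum]
    exact mul_pos (hC 0 N) (CyIsDep_pathpos q B C hB1 hC hB N)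

/-- rotation by one -/
theorem CyIsDep_rot_one (q M : ℕ) (T : List (Fin q) → ℝ) (hT : ∀ a w, T (w ++ [a]) = T (a :: w))
    (x : Fin (M + 2) → Fin q) :
    T (List.ofFn (fun i => x (i + 1))) = T (List.ofFn x) := by
  have h1 : List.ofFn (fun i : Fin (M + 2) => x (i + 1))
      = List.ofFn (fun i : Fin (M + 1) => x i.succ) ++ [x 0] := by
    rw [List.ofFn_succ', List.concat_eq_append]
    congr 1
    · congr 1
      funext i
      rw [Fin.coeSucc_eq_succ]
    · rw [Fin.last_add_one]
  rw [h1, hT, List.ofFn_succ (f := x)]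

theorem CyIsDep_rot (q M : ℕ) (T : List (Fin q) → ℝ) (hT : ∀ a w, T (w ++ [a]) = T (a :: w))
    (k : Fin (M + 2)) : ∀ (x : Fin (M + 2) → Fin q),
    T (List.ofFn (fun i => x (i + k))) = T (List.ofFn x) := by
  induction k using Fin.induction with
  | zero => intro x; simp only [add_zero]
  | succ k ih =>
    intro x
    have h := ih (fun i => x (i + 1))
    rw [CyIsDep_rot_one q M T hT x] at h
    rw [← h]
    congr 2
    funext i
    rw [← Fin.coeSucc_eq_succ]
    exact congrArg x (add_assoc (G := Fin (M + 2)) i k.castSucc 1).symm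

/-- summing out the last letter after a rotation -/
theorem CyIsDep_sum_out (q M : ℕ) (B : List (Fin q) → ℝ) (T : List (Fin q) → ℝ) (c : ℕ → ℝ)
    (hT : ∀ a w, T (w ++ [a]) = T (a :: w))
    (hc : ∀ w, 2 ≤ w.length → ∑ b, T (w ++ [b]) = c w.length * B w) (hM : 1 ≤ M)
    (k : Fin (M + 2)) (P : (Fin (M + 2) → Fin q) → Prop) (Q : (Fin (M + 1) → Fin q) → Prop)
    [DecidablePred P] [DecidablePred Q] (hPQ : ∀ x, P x ↔ Q (fun i => x (i.castSucc + k))) :
    ∑ x ∈ Finset.univ.filter P, T (List.ofFn x)
      = c (M + 1) * ∑ w ∈ Finset.univ.filter Q, B (List.ofFn w) := by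
  rw [Finset.sum_filter, Finset.sum_filter]
  have h1 : ∑ x : Fin (M + 2) → Fin q, (if P x then T (List.ofFn x) else 0)
      = ∑ x : Fin (M + 2) → Fin q,
          (if Q (fun i => x i.castSucc) then T (List.ofFn x) else 0) := by
    refine Fintype.sum_equiv (Equiv.arrowCongr (Equiv.addRight k).symm (Equiv.refl (Fin q))) _ _ ?_
    intro x
    have e1 : (Equiv.arrowCongr (Equiv.addRight k).symm (Equiv.refl (Fin q))) x
        = fun i => x (i + k) := by
      funext i
      simp [Equiv.arrowCongr]
    rw [e1, CyIsDep_rot q M T hT k x]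
    simp only [hPQ x]
  rw [h1, CyIsDep_sum_snoc q (M + 1), Finset.mul_sum]
  refine Finset.sum_congr rfl (fun w _ => ?_)
  have h2 : ∀ b : Fin q, (fun i : Fin (M + 1) =>
      (Fin.snoc (α := fun _ => Fin q) w b : Fin (M + 2) → Fin q) i.castSucc) = w := by
    intro b
    funext i
    simp
  simp only [h2, CyIsDep_ofFn_snoc]
  by_cases hQ : Q w
  · simp only [if_pos hQ]
    rw [hc _ (by rw [List.length_ofFn]; omega), List.length_ofFn]
  · simp [hQ]

theorem exists_isDep_of_hasCyc (h1 : path_indep_Stm) (h2 : exists_gap_Stm) :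
    exists_isDep_of_hasCyc_Stm := by
  classical
  intro q h n hn
  obtain ⟨B, C, T, c, hB1, hB0, hC, hB, hT0, hT, hTσ, hTp, hc0, hc⟩ := h
  obtain ⟨M, rfl⟩ : ∃ M, n = M + 2 := ⟨n - 2, by omega⟩
  have hM : 1 ≤ M := by omega
  have hcM : 0 < c (M + 1) := hc0 _ (by omega)
  have htot : ∑ x : Fin (M + 2) → Fin q, T (List.ofFn x)
      = c (M + 1) * ∑ w : Fin (M + 1) → Fin q, B (List.ofFn w) := by
    have := CyIsDep_sum_out q M B T c hT hc hM 0 (fun _ => True) (fun _ => True)
      (fun _ => Iff.rfl)
    simpa using this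
  refine ⟨fun x => T (List.ofFn x), fun x => hT0 _, ?_, ?_, ?_, ?_⟩
  · show 0 < ∑ x : Fin (M + 2) → Fin q, T (List.ofFn x)
    rw [htot]
    exact mul_pos hcM (CyIsDep_pathpos q B C hB1 hC hB (M + 1))
  · -- proper
    rintro x ⟨i, j, hij, hx⟩
    have key : ∀ (i : Fin (M + 2)), x i = x (i + 1) → T (List.ofFn x) = 0 := by
      intro i hi
      rw [← CyIsDep_rot q M T hT i x]
      apply hTp
      rw [List.ofFn_succ, List.ofFn_succ]
      intro hch
      have h3 := hch.rel
      apply h3
      simp only [zero_add]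
      rw [hi, add_comm]
      rfl
    rw [SimpleGraph.cycleGraph_adj] at hij
    rcases hij with h | h
    · have : i = j + 1 := by rw [← h]; abel
      exact key j (by rw [← this]; exact hx.symm)
    · have : j = i + 1 := by rw [← h]; abel
      exact key i (by rw [← this]; exact hx)
  · intro σ x
    show T (List.ofFn (σ ∘ x)) = T (List.ofFn x)
    rw [← hTσ σ (List.ofFn x), List.map_ofFn]
  · intro A A' hAA y z
    rcases Set.eq_empty_or_nonempty A with rfl | hA
    · simp [mul_comm]
    rcases Set.eq_empty_or_nonempty A' with rfl | hA'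
    · simp
    obtain ⟨j, hjA, hjA'⟩ := h2 (M + 2) hn A A' hA hA' hAA
    obtain ⟨k, hk⟩ : ∃ k : Fin (M + 2), Fin.last (M + 1) + k = j :=
      ⟨j - Fin.last (M + 1), by abel⟩
    -- membership reduces to the first positions
    have hred : ∀ (D : Set (Fin (M + 2))), j ∉ D → ∀ (y x : Fin (M + 2) → Fin q),
        (∀ a ∈ D, x a = y a) ↔ ∀ i ∈ {i : Fin (M + 1) | i.castSucc + k ∈ D},
          x (i.castSucc + k) = y (i.castSucc + k) := by
      intro D hD y x
      constructor
      · intro h i hi
        exact h _ hi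
      · intro h a ha
        have h3 : ∃ i : Fin (M + 1), i.castSucc + k = a := by
          have h4 : a - k ≠ Fin.last (M + 1) := by
            intro h5
            apply hD
            rw [← hk, ← h5, sub_add_cancel]
            exact ha
          obtain ⟨i, hi⟩ := Fin.exists_castSucc_eq.2 h4
          exact ⟨i, by rw [hi, sub_add_cancel]⟩
        obtain ⟨i, rfl⟩ := h3
        exact h i ha
    have e1 := CyIsDep_sum_out q M B T c hT hc hM k
      (fun x => (∀ a ∈ A, x a = y a) ∧ ∀ b ∈ A', x b = z b)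
      (fun w => (∀ i ∈ {i : Fin (M + 1) | i.castSucc + k ∈ A}, w i = y (i.castSucc + k)) ∧
        ∀ i ∈ {i : Fin (M + 1) | i.castSucc + k ∈ A'}, w i = z (i.castSucc + k))
      (fun x => and_congr (hred A hjA y x) (hred A' hjA' z x))
    have e2 := CyIsDep_sum_out q M B T c hT hc hM k
      (fun x => (∀ a ∈ A, x a = y a))
      (fun w => (∀ i ∈ {i : Fin (M + 1) | i.castSucc + k ∈ A}, w i = y (i.castSucc + k)))
      (fun x => (hred A hjA y x))
    have e3 := CyIsDep_sum_out q M B T c hT hc hM k
      (fun x => (∀ a ∈ A', x a = z a))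
      (fun w => (∀ i ∈ {i : Fin (M + 1) | i.castSucc + k ∈ A'}, w i = z (i.castSucc + k)))
      (fun x => (hred A' hjA' z x))
    have e4 := h1 q B C hB1 hC hB (M + 1) {i : Fin (M + 1) | i.castSucc + k ∈ A}
      {i : Fin (M + 1) | i.castSucc + k ∈ A'} (by
        intro a ha b hb
        have h5 := hAA _ ha _ hb
        by_contra hcon
        push Not at hcon
        have h6 : (a : ℕ) = b ∨ (b : ℕ) = a + 1 ∨ (a : ℕ) = b + 1 := by omega
        rcases h6 with h6 | h6 | h6
        · have : a = b := Fin.ext h6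
          subst this
          simp at h5
        · have h7 : b.castSucc = a.castSucc + 1 := by
            rw [Fin.coeSucc_eq_succ]
            exact Fin.ext (by simp [h6])
          have h8 : (SimpleGraph.cycleGraph (M + 2)).Adj (a.castSucc + k) (b.castSucc + k) := by
            rw [SimpleGraph.cycleGraph_adj]
            right
            rw [h7]
            abel
          rw [SimpleGraph.dist_eq_one_iff_adj.2 h8] at h5
          exact lt_irrefl _ h5
        · have h7 : a.castSucc = b.castSucc + 1 := by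
            rw [Fin.coeSucc_eq_succ]
            exact Fin.ext (by simp [h6])
          have h8 : (SimpleGraph.cycleGraph (M + 2)).Adj (a.castSucc + k) (b.castSucc + k) := by
            rw [SimpleGraph.cycleGraph_adj]
            left
            rw [h7]
            abel
          rw [SimpleGraph.dist_eq_one_iff_adj.2 h8] at h5
          exact lt_irrefl _ h5)
      (fun i => y (i.castSucc + k)) (fun i => z (i.castSucc + k))
    show (∑ x ∈ Finset.univ.filter (fun x : Fin (M + 2) → Fin q =>
        (∀ a ∈ A, x a = y a) ∧ ∀ b ∈ A', x b = z b), T (List.ofFn x))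
        * (∑ x : Fin (M + 2) → Fin q, T (List.ofFn x))
      = (∑ x ∈ Finset.univ.filter (fun x : Fin (M + 2) → Fin q => ∀ a ∈ A, x a = y a),
          T (List.ofFn x))
        * (∑ x ∈ Finset.univ.filter (fun x : Fin (M + 2) → Fin q => ∀ b ∈ A', x b = z b),
          T (List.ofFn x))
    rw [e1, e2, e3, htot]
    linear_combination (c (M + 1)) ^ 2 * e4

end Pool.CY
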