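import Pool.Agent.C621.StmC

set_option autoImplicit false
open MeasureTheory ProbabilityTheory
namespace Pool.CY

open Classical in
noncomputable def CyMeas_mu {n q : ℕ} (T : (Fin n → Fin q) → ℝ) : Measure (Fin n → Fin q) :=
  ∑ x : Fin n → Fin q, ENNReal.ofReal (T x / ∑ x, T x) • Measure.dirac x

open Classical in
theorem CyMeas_apply {n q : ℕ} (T : (Fin n → Fin q) → ℝ) (h0 : ∀ x, 0 ≤ T x)
    (h1 : 0 < ∑ x, T x) (E : Set (Fin n → Fin q)) :
    CyMeas_mu T E = ENNReal.ofReal ((∑ x ∈ Finset.univ.filter (fun x => x ∈ E), T x) / ∑ x, T x) := by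
  have hE : MeasurableSet E := DiscreteMeasurableSpace.forall_measurableSet E
  unfold CyMeas_mu
  rw [Measure.finset_sum_apply]
  simp only [Measure.smul_apply, Measure.dirac_apply' _ hE, smul_eq_mul]
  rw [Finset.sum_div, ENNReal.ofReal_sum_of_nonneg (fun x _ => div_nonneg (h0 x) h1.le),
    Finset.sum_filter]
  refine Finset.sum_congr rfl (fun x _ => ?_)
  by_cases hx : x ∈ E
  · simp [hx]
  · simp [hx]

theorem CyMeas_apply' {n q : ℕ} (T : (Fin n → Fin q) → ℝ) (h0 : ∀ x, 0 ≤ T x)
    (h1 : 0 < ∑ x, T x) (E : Set (Fin n → Fin q)) (p : (Fin n → Fin q) → Prop) [DecidablePred p]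
    (hp : ∀ x, x ∈ E ↔ p x) :
    CyMeas_mu T E = ENNReal.ofReal ((∑ x ∈ Finset.univ.filter (fun x => p x), T x) / ∑ x, T x) := by
  rw [CyMeas_apply T h0 h1]
  congr 2
  refine Finset.sum_congr ?_ (fun _ _ => rfl)
  ext x
  simp [hp x]

theorem CyMeas_prob {n q : ℕ} (T : (Fin n → Fin q) → ℝ) (h0 : ∀ x, 0 ≤ T x)
    (h1 : 0 < ∑ x, T x) : IsProbabilityMeasure (CyMeas_mu T) := by
  refine ⟨?_⟩
  rw [CyMeas_apply T h0 h1]
  simp [h1.ne']

open Classical in
theorem CyMeas_split {Ω α β : Type} [Fintype Ω] [Fintype α] [Fintype β] (T : Ω → ℝ) (f : Ω → α)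
    (g : Ω → β) (s : Set α) (t : Set β) :
    (∑ x ∈ Finset.univ.filter (fun x => f x ∈ s ∧ g x ∈ t), T x) =
      ∑ a ∈ Finset.univ.filter (fun a => a ∈ s), ∑ b ∈ Finset.univ.filter (fun b => b ∈ t),
        ∑ x ∈ Finset.univ.filter (fun x => f x = a ∧ g x = b), T x := by
  have h1 : ∀ a b, (∑ x ∈ Finset.univ.filter (fun x => f x = a ∧ g x = b), T x) =
      ∑ x, (if f x = a ∧ g x = b then T x else 0) := fun a b => Finset.sum_filter _ _
  simp only [h1]
  rw [Finset.sum_congr rfl (fun a _ => Finset.sum_comm), Finset.sum_comm, Finset.sum_filter]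
  refine Finset.sum_congr rfl (fun x _ => ?_)
  have h2 : ∀ a b, (if f x = a ∧ g x = b then T x else 0) =
      (if f x = a then (if g x = b then T x else 0) else 0) := fun a b => by
    by_cases h3 : f x = a <;> by_cases h4 : g x = b <;> simp [h3, h4]
  simp only [h2]
  by_cases h3 : f x ∈ s
  · rw [Finset.sum_eq_single (f x)]
    · by_cases h4 : g x ∈ t
      · rw [Finset.sum_eq_single (g x)]
        · simp [h3, h4]
        · intro b _ hb
          simp [Ne.symm hb]
        · intro h; exact absurd (Finset.mem_filter.mpr ⟨Finset.mem_univ _, h4⟩) h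
      · rw [Finset.sum_eq_zero]
        · simp [h4]
        · intro b hb
          have : g x ≠ b := by
            rintro rfl
            exact h4 (Finset.mem_filter.mp hb).2
          simp [this]
    · intro a _ ha
      simp [Ne.symm ha]
    · intro h; exact absurd (Finset.mem_filter.mpr ⟨Finset.mem_univ _, h3⟩) h
  · rw [Finset.sum_eq_zero]
    · simp [h3]
    · intro a ha
      have : f x ≠ a := by
        rintro rfl
        exact h3 (Finset.mem_filter.mp ha).2
      simp [this]

open Classical in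
theorem CyMeas_split1 {Ω α : Type} [Fintype Ω] [Fintype α] (T : Ω → ℝ) (f : Ω → α)
    (s : Set α) :
    (∑ x ∈ Finset.univ.filter (fun x => f x ∈ s), T x) =
      ∑ a ∈ Finset.univ.filter (fun a => a ∈ s),
        ∑ x ∈ Finset.univ.filter (fun x => f x = a), T x := by
  have := CyMeas_split T f (fun _ => ()) s Set.univ
  simpa using this

open Classical in
theorem CyMeas_indep {Ω α β : Type} [Fintype Ω] [Fintype α] [Fintype β] (T : Ω → ℝ) (f : Ω → α)
    (g : Ω → β)
    (h : ∀ a b, (∑ x ∈ Finset.univ.filter (fun x => f x = a ∧ g x = b), T x) * (∑ x, T x) =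
      (∑ x ∈ Finset.univ.filter (fun x => f x = a), T x) *
        (∑ x ∈ Finset.univ.filter (fun x => g x = b), T x)) (s : Set α) (t : Set β) :
    (∑ x ∈ Finset.univ.filter (fun x => f x ∈ s ∧ g x ∈ t), T x) * (∑ x, T x) =
      (∑ x ∈ Finset.univ.filter (fun x => f x ∈ s), T x) *
        (∑ x ∈ Finset.univ.filter (fun x => g x ∈ t), T x) := by
  rw [CyMeas_split, CyMeas_split1 T f, CyMeas_split1 T g]
  refine (Finset.sum_mul _ _ _).trans ?_
  refine (Finset.sum_congr rfl (fun a _ => ?_)).trans (Finset.sum_mul_sum _ _ _ _).symm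
  refine (Finset.sum_mul _ _ _).trans ?_
  exact Finset.sum_congr rfl (fun b _ => h a b)

open Classical in
theorem measure_of_isDep : measure_of_isDep_Stm := by
  intro n q k T h
  obtain ⟨h0, h1, h2, h3, h4⟩ := h
  refine ⟨CyMeas_mu T, CyMeas_prob T h0 h1, ?_, ?_, ?_⟩
  · rw [ae_iff]
    have h5 := CyMeas_apply' T h0 h1 {x | ¬ ∀ i j : Fin n, (SimpleGraph.cycleGraph n).Adj i j → x i ≠ x j}
      (fun x => ¬ ∀ i j : Fin n, (SimpleGraph.cycleGraph n).Adj i j → x i ≠ x j) (fun x => Iff.rfl)
    rw [h5, Finset.sum_eq_zero]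
    · simp
    · intro x hx
      rw [Finset.mem_filter] at hx
      have hx2 := hx.2
      push Not at hx2
      exact h2 x hx2
  · intro σ
    ext E hE
    rw [Measure.map_apply (measurable_of_finite _) hE, CyMeas_apply T h0 h1, CyMeas_apply T h0 h1]
    congr 2
    rw [Finset.sum_filter, Finset.sum_filter]
    rw [← Equiv.sum_comp (Equiv.arrowCongr (Equiv.refl (Fin n)) σ) (fun x => if x ∈ E then T x else 0)]
    refine Finset.sum_congr rfl (fun x _ => ?_)
    have e : (Equiv.arrowCongr (Equiv.refl (Fin n)) σ) x = σ ∘ x := by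
      funext i
      simp [Equiv.arrowCongr]
    simp only [e, h3 σ x]
    rfl
  · intro A B hAB
    rw [indepFun_iff_measure_inter_preimage_eq_mul]
    intro s t _ _
    rw [CyMeas_apply' T h0 h1 ((fun x : Fin n → Fin q => fun a : A => x a) ⁻¹' s ∩
        (fun x : Fin n → Fin q => fun b : B => x b) ⁻¹' t)
        (fun x : Fin n → Fin q => (fun a : A => x a) ∈ s ∧ (fun b : B => x b) ∈ t)
        (fun x => Iff.rfl),
      CyMeas_apply' T h0 h1 ((fun x : Fin n → Fin q => fun a : A => x a) ⁻¹' s)
        (fun x : Fin n → Fin q => (fun a : A => x a) ∈ s) (fun x => Iff.rfl),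
      CyMeas_apply' T h0 h1 ((fun x : Fin n → Fin q => fun b : B => x b) ⁻¹' t)
        (fun x : Fin n → Fin q => (fun b : B => x b) ∈ t) (fun x => Iff.rfl),
      ← ENNReal.ofReal_mul (div_nonneg (Finset.sum_nonneg fun x _ => h0 x) h1.le)]
    congr 1
    have hne : Nonempty (Fin n → Fin q) := by
      by_contra hh
      rw [not_nonempty_iff] at hh
      simp at h1
    obtain ⟨x0⟩ := hne
    have key := CyMeas_indep T (fun x : Fin n → Fin q => fun a : A => x a)
      (fun x : Fin n → Fin q => fun b : B => x b) ?_ s t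
    · rw [div_mul_div_comm, div_eq_div_iff h1.ne' (mul_pos h1 h1).ne']
      have key2 := congrArg (fun r => r * ∑ x, T x) key
      rw [← mul_assoc]
      convert key2 using 1
    · intro a b
      have hf := h4 A B hAB (fun i => if hi : i ∈ A then a ⟨i, hi⟩ else x0 i)
        (fun i => if hi : i ∈ B then b ⟨i, hi⟩ else x0 i)
      have ea : ∀ x : Fin n → Fin q, ((fun i : A => x i) = a) ↔
          ∀ i ∈ A, x i = (if hi : i ∈ A then a ⟨i, hi⟩ else x0 i) := by
        intro x
        constructor
        · intro hx i hi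
          rw [dif_pos hi]
          exact congrFun hx ⟨i, hi⟩
        · intro hx
          funext i
          have := hx i.1 i.2
          rw [dif_pos i.2] at this
          exact this
      have eb : ∀ x : Fin n → Fin q, ((fun i : B => x i) = b) ↔
          ∀ i ∈ B, x i = (if hi : i ∈ B then b ⟨i, hi⟩ else x0 i) := by
        intro x
        constructor
        · intro hx i hi
          rw [dif_pos hi]
          exact congrFun hx ⟨i, hi⟩
        · intro hx
          funext i
          have := hx i.1 i.2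
          rw [dif_pos i.2] at this
          exact this
      simp only [ea, eb]
      exact hf

end Pool.CY
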