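import Pool.Agent.C621.Stm

/-! Project CY: relation for the matrix `X`. -/

set_option autoImplicit false
open Matrix
namespace Pool.CY

theorem CyRelX_reidx {α : Type} (x : List α) (p : ℕ) (F : Fin x.length → ℝ)
    (hF : ∀ j : Fin x.length, ¬ p < (j : ℕ) → F j = 0) :
    ∑ j, F j = ∑ k : Fin (x.drop (p + 1)).length,
      F ⟨p + 1 + k, by have := k.2; simp at this; omega⟩ := by
  symm
  apply Finset.sum_of_injOn
    (fun k : Fin (x.drop (p + 1)).length =>
      (⟨p + 1 + k, by have := k.2; simp at this; omega⟩ : Fin x.length))
  · intro a _ b _ hab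
    simp only [Fin.mk.injEq] at hab
    exact Fin.ext (by omega)
  · intro a _
    simp
  · intro i _ hi
    apply hF
    intro hpi
    apply hi
    refine ⟨⟨(i : ℕ) - (p + 1), by have := i.2; simp; omega⟩, by simp, ?_⟩
    apply Fin.ext
    simp only
    omega
  · intro i _
    rfl

theorem rel_X (hs : s2_first_Stm) : rel_X_Stm := by
  classical
  intro α t h0 h1 x p p' h
  have e1 := hs α h0 h1 (x.get p) (x.get p') (x.drop (p + 1)) (x.take p')
  have hlen : (x.drop (p + 1)).length + (x.take p').length + 1 = x.length - p + p' := by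
    have := p.2
    have := p'.2
    simp only [List.length_drop, List.length_take]
    omega
  have hlen2 : (x.drop (p + 1)).length = x.length - (p + 1) := by simp
  have hX : X t x p p' = s2 t (x.get p) (x.get p') (x.drop (p + 1)) (x.take p') := by
    unfold X
    rw [if_neg h]
  have hsum : (U1 t x * X t x) p p' =
      ssum (x.drop (p + 1)) (fun u1 j u2 => t ^ u1.length * ii t (x.get p) u1 j *
            (if j = x.get p' then 0 else s2 t j (x.get p') u2 (x.take p'))) := by
    rw [Matrix.mul_apply, CyRelX_reidx x p _ (by
      intro j hj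
      unfold U1 U
      rw [if_neg hj]
      ring), ssum_eq_sum]
    apply Finset.sum_congr rfl
    intro k _
    have hk : (k : ℕ) < x.length - (p + 1) := hlen2 ▸ k.2
    unfold U1 U X
    have hlt : (p : ℕ) < ((⟨p + 1 + k, by omega⟩ : Fin x.length) : ℕ) := by
      simp only
      omega
    rw [if_pos hlt]
    have e2 : ((⟨p + 1 + k, by omega⟩ : Fin x.length) : ℕ) - (p + 1) = k := by
      simp only
      omega
    rw [e2]
    have e3 : (x.drop (p + 1)).get k = x.get ⟨p + 1 + k, by omega⟩ := by
      simp
    have e4 : ((x.drop (p + 1)).take k).length = k := by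
      simp only [List.length_take, List.length_drop]
      omega
    have e5 : (x.drop (p + 1)).drop (k + 1) = x.drop (p + 1 + k + 1) := by
      rw [List.drop_drop]
      congr 1
    rw [e3, e4, e5]
  rw [Matrix.sub_mul, Matrix.sub_apply, Matrix.one_mul, hsum]
  rw [hlen] at e1
  have e6 : X1 t x p p' = t ^ (x.length - p + p') * X t x p p' := rfl
  have e7 : l1 t x p = t ^ (x.length - (p + 1)) * g t (some (x.get p)) (x.drop (p + 1)) none := rfl
  have e8 : r0 t x p' = g t none (x.take p') (some (x.get p')) := rfl
  rw [hlen2] at e1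
  rw [e6, e7, e8, hX]
  linear_combination e1

end Pool.CY
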