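import Pool.Agent.C621.Stm

/-! Project CY: the last arrival recursion for `s1`. -/

set_option autoImplicit false
namespace Pool.CY

open Classical in
/-- `s1` with different end letters -/
noncomputable def CyS1Last_A {α : Type} (t : ℝ) (a j : α) (u w : List α) : ℝ :=
  if a = j then 0 else s1 t a j u w

theorem CyS1Last_comm {α : Type} (u v : List α) (F : List α → α → List α → List α → α → List α → ℝ) :
    ssum u (fun u1 i u2 => ssum v (fun v1 j v2 => F u1 i u2 v1 j v2)) =
      ssum v (fun v1 j v2 => ssum u (fun u1 i u2 => F u1 i u2 v1 j v2)) := by
  induction u generalizing F with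
  | nil => simp [ssum, ssum_zero]
  | cons a w ih =>
    simp only [ssum]
    rw [ih (fun u1 i u2 v1 j v2 => F (a :: u1) i u2 v1 j v2), ssum_add]

theorem CyS1Last_glast {α : Type} {t : ℝ} (h0 : 0 < t) (h1 : t < 1) (x : Option α) (w : List α) (y : Option α)
    (hok : okw x w y) :
    (1 - t ^ w.length) * g t x w y = ssum w (fun u _ v => t ^ v.length * g t x (u ++ v) y) := by
  by_cases hw : w = []
  · subst hw; simp [ssum]
  · exact g_last h0 h1 x w y hw hok

theorem CyS1Last_ok1 {α : Type} {v1 v2 : List α} {j c : α} (h : okw none (v1 ++ j :: v2) (some c)) :
    okw none v1 (some j) := by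
  rcases h with h | h
  · simp at h
  · right
    simp only [Option.toList, List.nil_append, List.append_assoc, List.cons_append] at h ⊢
    rw [show v1 ++ j :: (v2 ++ [c]) = (v1 ++ [j]) ++ (v2 ++ [c]) by simp] at h
    exact h.left_of_append

theorem CyS1Last_ok2 {α : Type} {v1 v2 : List α} {j c : α} (h : okw none (v1 ++ j :: v2) (some c)) :
    okw (some j) v2 (some c) := by
  rcases h with h | h
  · simp at h
  · right
    simp only [Option.toList, List.nil_append, List.append_assoc, List.cons_append] at h ⊢
    exact h.right_of_append

open Classical in
theorem CyS1Last_if1 {α : Type} (t : ℝ) (a j : α) (w : List α) :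
    (if some a = some j then (0:ℝ) else g t (some a) w (some j)) = ii t a w j := by
  unfold ii; simp only [Option.some.injEq]

open Classical in
theorem CyS1Last_if2 {α : Type} (t : ℝ) (c j : α) (w : List α) :
    (if some c = some j then (0:ℝ) else g t (some j) w (some c)) = ii t j w c := by
  unfold ii
  by_cases h : j = c
  · subst h; simp
  · rw [if_neg h, if_neg]
    intro h2
    exact h (Option.some.inj h2).symm

open Classical in
/-- the pointwise identity -/
theorem CyS1Last_point {α : Type} {t : ℝ} (h0 : 0 < t) (h1 : t < 1) (a c j : α) (u v1 v2 : List α)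
    (hok2 : okw (some j) v2 (some c))
    (ih : (1 - t ^ (u.length + v1.length + 1)) * s1 t a j u v1 =
      ssum u (fun u1 _ u2 => t ^ (u2.length + v1.length + 1) * s1 t a j (u1 ++ u2) v1)
      + ssum v1 (fun p _ q => t ^ q.length * s1 t a j u (p ++ q))
      + (if u = [] then t ^ (v1.length + 1) * g t (some a) v1 (some j) else 0)) :
    (1 - t ^ (u.length + (v1.length + (v2.length + 1)))) *
        (t ^ (u.length + v1.length + 1) * CyS1Last_A t a j u v1 * ii t j v2 c) =
      ssum u (fun u1 _ u2 => t ^ (u.length + v1.length + 1 + v2.length) * t ^ (u2.length + v1.length + 1) *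
        CyS1Last_A t a j (u1 ++ u2) v1 * ii t j v2 c)
      + ssum v1 (fun p _ q => t ^ (u.length + v1.length + 1 + v2.length) * t ^ q.length *
        CyS1Last_A t a j u (p ++ q) * ii t j v2 c)
      + (if u = [] then t ^ (u.length + v1.length + 1 + v2.length) * t ^ (v1.length + 1) *
          ii t a v1 j * ii t j v2 c else 0)
      + ssum v2 (fun p _ q => t ^ (u.length + v1.length + 1) * t ^ q.length *
        CyS1Last_A t a j u v1 * ii t j (p ++ q) c) := by
  by_cases haj : a = j
  · unfold CyS1Last_A ii
    simp only [haj, if_true, mul_zero, zero_mul, ssum_zero, ite_self, add_zero]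
  by_cases hjc : j = c
  · unfold ii
    simp only [hjc, if_true, mul_zero, ssum_zero, ite_self, add_zero]
  · unfold CyS1Last_A ii
    simp only [if_neg haj, if_neg hjc]
    have hgl := CyS1Last_glast h0 h1 (some j) v2 (some c) hok2
    set G := g t (some j) v2 (some c) with hG
    set Sv := s1 t a j u v1 with hSv
    have e1 : ssum u (fun u1 _ u2 => t ^ (u.length + v1.length + 1 + v2.length) * t ^ (u2.length + v1.length + 1) *
        s1 t a j (u1 ++ u2) v1 * G) = (t ^ (u.length + v1.length + 1 + v2.length) * G) *
          ssum u (fun u1 _ u2 => t ^ (u2.length + v1.length + 1) * s1 t a j (u1 ++ u2) v1) := by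
      rw [← ssum_mul]; apply ssum_congr; intro _ _ _ _; ring
    have e2 : ssum v1 (fun p _ q => t ^ (u.length + v1.length + 1 + v2.length) * t ^ q.length *
        s1 t a j u (p ++ q) * G) = (t ^ (u.length + v1.length + 1 + v2.length) * G) *
          ssum v1 (fun p _ q => t ^ q.length * s1 t a j u (p ++ q)) := by
      rw [← ssum_mul]; apply ssum_congr; intro _ _ _ _; ring
    have e3 : ssum v2 (fun p _ q => t ^ (u.length + v1.length + 1) * t ^ q.length *
        Sv * g t (some j) (p ++ q) (some c)) = (t ^ (u.length + v1.length + 1) * Sv) *
          ssum v2 (fun p _ q => t ^ q.length * g t (some j) (p ++ q) (some c)) := by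
      rw [← ssum_mul]; apply ssum_congr; intro _ _ _ _; ring
    have e4 : (if u = [] then t ^ (u.length + v1.length + 1 + v2.length) * t ^ (v1.length + 1) *
          g t (some a) v1 (some j) * G else 0) = (t ^ (u.length + v1.length + 1 + v2.length) * G) *
          (if u = [] then t ^ (v1.length + 1) * g t (some a) v1 (some j) else 0) := by
      split_ifs <;> ring
    rw [e1, e2, e3, e4, ← hgl]
    have key : (t ^ (u.length + v1.length + 1 + v2.length) * G) *
          ssum u (fun u1 _ u2 => t ^ (u2.length + v1.length + 1) * s1 t a j (u1 ++ u2) v1) +
        (t ^ (u.length + v1.length + 1 + v2.length) * G) *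
          ssum v1 (fun p _ q => t ^ q.length * s1 t a j u (p ++ q)) +
        (t ^ (u.length + v1.length + 1 + v2.length) * G) *
          (if u = [] then t ^ (v1.length + 1) * g t (some a) v1 (some j) else 0) =
        (t ^ (u.length + v1.length + 1 + v2.length) * G) * ((1 - t ^ (u.length + v1.length + 1)) * Sv) := by
      rw [ih]; ring
    rw [key]
    ring

open Classical in
theorem s1_last (hg : g_first_Stm) (hs : s1_first_Stm) (_hb : s1_bad_Stm) : s1_last_Stm := by
  intro α t h0 h1
  have H : ∀ n : ℕ, ∀ (a c : α) (u v : List α), u.length + v.length = n → okw (some a) u none → okw none v (some c) →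
      (1 - t ^ (u.length + v.length + 1)) * s1 t a c u v =
      ssum u (fun u1 _ u2 => t ^ (u2.length + v.length + 1) * s1 t a c (u1 ++ u2) v)
      + ssum v (fun v1 _ v2 => t ^ v2.length * s1 t a c u (v1 ++ v2))
      + (if u = [] then t ^ (v.length + 1) * g t (some a) v (some c) else 0) := by
    intro n
    induction n using Nat.strong_induction_on with
    | _ n ih =>
      intro a c u v hn hu hv
      rcases Nat.eq_zero_or_pos n with hn0 | hn0
      · have hu0 : u = [] := List.length_eq_zero_iff.mp (by omega)
        have hv0 : v = [] := List.length_eq_zero_iff.mp (by omega)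
        subst hu0 hv0
        rw [hs α h0 h1 a c [] []]
        simp [ssum, g_nil]
      · have hne : 1 - t ^ (u.length + v.length) ≠ 0 := one_sub_pow_ne h0 h1 _ (by omega)
        apply mul_left_cancel₀ hne
        -- the two sides as sums
        have hF : ∀ (u v : List α), (1 - t ^ (u.length + v.length + 1)) * s1 t a c u v =
            t ^ (u.length + 1) * g t (some a) u none * g t none v (some c)
            + ssum v (fun v1 j v2 => t ^ (u.length + v1.length + 1) * CyS1Last_A t a j u v1 * ii t j v2 c) :=
          fun u v => hs α h0 h1 a c u v
        -- right hand side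
        have r1 : (1 - t ^ (u.length + v.length)) *
            ssum u (fun u1 _ u2 => t ^ (u2.length + v.length + 1) * s1 t a c (u1 ++ u2) v) =
            ssum u (fun u1 _ u2 => t ^ (u.length + 1) * (t ^ v.length * (t ^ u2.length * g t (some a) (u1 ++ u2) none)) *
              g t none v (some c)) +
            ssum u (fun u1 _ u2 => ssum v (fun v1 j v2 => t ^ (u.length + v1.length + 1 + v2.length) *
              t ^ (u2.length + v1.length + 1) * CyS1Last_A t a j (u1 ++ u2) v1 * ii t j v2 c)) := by
          rw [← ssum_mul, ← ssum_add]
          apply ssum_congr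
          intro u1 i u2 e
          have hlen : u.length = u1.length + (u2.length + 1) := by rw [e]; simp
          have h3 := hF (u1 ++ u2) v
          have h4 : (u1 ++ u2).length + v.length + 1 = u.length + v.length := by
            rw [List.length_append]; omega
          rw [h4] at h3
          have h5 : (1 - t ^ (u.length + v.length)) * (t ^ (u2.length + v.length + 1) * s1 t a c (u1 ++ u2) v) =
              t ^ (u2.length + v.length + 1) * ((1 - t ^ (u.length + v.length)) * s1 t a c (u1 ++ u2) v) := by ring
          rw [h5, h3, mul_add, ← ssum_mul]
          congr 1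
          · rw [List.length_append, hlen]; ring
          · apply ssum_congr
            intro v1 j v2 e2
            have hlv : v.length = v1.length + (v2.length + 1) := by rw [e2]; simp
            rw [List.length_append, hlen, hlv]; ring
        have r2 : (1 - t ^ (u.length + v.length)) *
            ssum v (fun v1 _ v2 => t ^ v2.length * s1 t a c u (v1 ++ v2)) =
            ssum v (fun v1 _ v2 => t ^ (u.length + 1) * g t (some a) u none * (t ^ v2.length * g t none (v1 ++ v2) (some c))) +
            (ssum v (fun v1 _ v2 => ssum v1 (fun w1 j r => t ^ (u.length + w1.length + 1) * t ^ v2.length *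
                CyS1Last_A t a j u w1 * ii t j (r ++ v2) c)) +
             ssum v (fun v1 _ v2 => ssum v2 (fun r j w2 => t ^ (u.length + (v1.length + (r.length + 1)) + 1 + w2.length) *
                t ^ r.length * CyS1Last_A t a j u (v1 ++ r) * ii t j w2 c))) := by
          rw [← ssum_mul, ← ssum_add, ← ssum_add]
          apply ssum_congr
          intro v1 i v2 e
          have hlen : v.length = v1.length + (v2.length + 1) := by rw [e]; simp
          have h3 := hF u (v1 ++ v2)
          have h4 : u.length + (v1 ++ v2).length + 1 = u.length + v.length := by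
            rw [List.length_append]; omega
          rw [h4] at h3
          have h5 : (1 - t ^ (u.length + v.length)) * (t ^ v2.length * s1 t a c u (v1 ++ v2)) =
              t ^ v2.length * ((1 - t ^ (u.length + v.length)) * s1 t a c u (v1 ++ v2)) := by ring
          rw [h5, h3, ssum_append, mul_add, mul_add, ← ssum_mul, ← ssum_mul]
          congr 1
          · ring
          congr 1
          · apply ssum_congr
            intro w1 j r _
            ring
          · apply ssum_congr
            intro r j w2 e2
            have hlr : v2.length = r.length + (w2.length + 1) := by rw [e2]; simp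
            rw [List.length_append, hlr]; ring
        have r3 : (1 - t ^ (u.length + v.length)) *
            (if u = [] then t ^ (v.length + 1) * g t (some a) v (some c) else 0) =
            ssum v (fun v1 j v2 => if u = [] then t ^ (u.length + v1.length + 1 + v2.length) * t ^ (v1.length + 1) *
              ii t a v1 j * ii t j v2 c else 0) := by
          by_cases hu0 : u = []
          · subst hu0
            simp only [if_true, List.length_nil, Nat.zero_add]
            have h3 := hg α h0 h1 (some a) v (some c)
            have h5 : (1 - t ^ v.length) * (t ^ (v.length + 1) * g t (some a) v (some c)) =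
              t ^ (v.length + 1) * ((1 - t ^ v.length) * g t (some a) v (some c)) := by ring
            rw [h5, h3, ← ssum_mul]
            apply ssum_congr
            intro v1 j v2 e
            have hlen : v.length = v1.length + (v2.length + 1) := by rw [e]; simp
            rw [CyS1Last_if1, CyS1Last_if2, hlen]; ring
          · simp only [if_neg hu0, mul_zero, ssum_zero]
        -- left hand side
        have l0 : (1 - t ^ (u.length + v.length)) * (t ^ (u.length + 1) * g t (some a) u none * g t none v (some c)) =
            ssum u (fun u1 _ u2 => t ^ (u.length + 1) * (t ^ v.length * (t ^ u2.length * g t (some a) (u1 ++ u2) none)) *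
              g t none v (some c)) +
            ssum v (fun v1 _ v2 => t ^ (u.length + 1) * g t (some a) u none * (t ^ v2.length * g t none (v1 ++ v2) (some c))) := by
          have h3 := CyS1Last_glast h0 h1 (some a) u none hu
          have h4 := CyS1Last_glast h0 h1 none v (some c) hv
          rw [ssum_mul, ← h4]
          have h5 : ssum u (fun u1 _ u2 => t ^ (u.length + 1) * (t ^ v.length * (t ^ u2.length * g t (some a) (u1 ++ u2) none)) *
              g t none v (some c)) = (t ^ (u.length + 1) * t ^ v.length * g t none v (some c)) *
                ssum u (fun u1 _ u2 => t ^ u2.length * g t (some a) (u1 ++ u2) none) := by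
            rw [← ssum_mul]; apply ssum_congr; intro _ _ _ _; ring
          rw [h5, ← h3]; ring
        have l1 : (1 - t ^ (u.length + v.length)) *
            ssum v (fun v1 j v2 => t ^ (u.length + v1.length + 1) * CyS1Last_A t a j u v1 * ii t j v2 c) =
            ssum v (fun v1 j v2 => ssum u (fun u1 _ u2 => t ^ (u.length + v1.length + 1 + v2.length) *
              t ^ (u2.length + v1.length + 1) * CyS1Last_A t a j (u1 ++ u2) v1 * ii t j v2 c)) +
            ssum v (fun v1 j v2 => ssum v1 (fun p _ q => t ^ (u.length + v1.length + 1 + v2.length) * t ^ q.length *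
              CyS1Last_A t a j u (p ++ q) * ii t j v2 c)) +
            ssum v (fun v1 j v2 => if u = [] then t ^ (u.length + v1.length + 1 + v2.length) * t ^ (v1.length + 1) *
              ii t a v1 j * ii t j v2 c else 0) +
            ssum v (fun v1 j v2 => ssum v2 (fun p _ q => t ^ (u.length + v1.length + 1) * t ^ q.length *
              CyS1Last_A t a j u v1 * ii t j (p ++ q) c)) := by
          rw [← ssum_mul, ← ssum_add, ← ssum_add, ← ssum_add]
          apply ssum_congr
          intro v1 j v2 e
          have hlen : v.length = v1.length + (v2.length + 1) := by rw [e]; simp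
          rw [e] at hv
          rw [hlen]
          exact CyS1Last_point h0 h1 a c j u v1 v2 (CyS1Last_ok2 hv)
            (ih (u.length + v1.length) (by omega) a j u v1 rfl hu (CyS1Last_ok1 hv))
        have m1 := CyS1Last_comm u v (fun u1 _ u2 v1 j v2 => t ^ (u.length + v1.length + 1 + v2.length) *
              t ^ (u2.length + v1.length + 1) * CyS1Last_A t a j (u1 ++ u2) v1 * ii t j v2 c)
        have m2 := ssum_assoc v (fun v1 _ r j w2 => t ^ (u.length + (v1.length + (r.length + 1)) + 1 + w2.length) *
                t ^ r.length * CyS1Last_A t a j u (v1 ++ r) * ii t j w2 c)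
        have m2' : ssum v (fun v1 j v2 => ssum v1 (fun p _ q => t ^ (u.length + v1.length + 1 + v2.length) * t ^ q.length *
              CyS1Last_A t a j u (p ++ q) * ii t j v2 c)) =
            ssum v (fun V j w2 => ssum V (fun v1 _ r => t ^ (u.length + (v1.length + (r.length + 1)) + 1 + w2.length) *
                t ^ r.length * CyS1Last_A t a j u (v1 ++ r) * ii t j w2 c)) := by
          apply ssum_congr
          intro V j w2 _
          apply ssum_congr
          intro p i q e
          have hlen : V.length = p.length + (q.length + 1) := by rw [e]; simp
          rw [hlen]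
        have m3 := ssum_assoc v (fun w1 j r _ v2 => t ^ (u.length + w1.length + 1) * t ^ v2.length *
                CyS1Last_A t a j u w1 * ii t j (r ++ v2) c)
        rw [hF u v, mul_add, l0, l1, mul_add, mul_add, r1, r2, r3, m1, m2, m2', ← m3]
        ring
  intro a c u v hu hv
  exact H _ a c u v rfl hu hv

end Pool.CY
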