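import Pool.Agent.C621.Stm

set_option autoImplicit false

/-! Project CY, part CySFirst: first-letter recursions of `s1` and `s2`. -/

namespace Pool.CY

theorem CySFirst_f1 {α : Type} (t : ℝ) (a : α) (u : List α) :
    ∀ (n m : ℕ) (v : List α) (c : α), v.length ≤ n → v.length ≤ m →
      s1f t n a c u v = s1f t m a c u v := by
  intro n
  induction n with
  | zero =>
    intro m v c hn hm
    have hv : v = [] := List.length_eq_zero_iff.1 (Nat.le_zero.1 hn)
    subst hv
    cases m with
    | zero => rfl
    | succ m => simp [s1f, ssum]
  | succ n ih =>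
    intro m v c hn hm
    cases m with
    | zero =>
      have hv : v = [] := List.length_eq_zero_iff.1 (Nat.le_zero.1 hm)
      subst hv
      simp [s1f, ssum]
    | succ m =>
      simp only [s1f]
      congr 2
      apply ssum_congr
      intro v1 j v2 hv
      have hl : v1.length + v2.length + 1 = v.length := by
        rw [hv]; simp; omega
      rw [ih m v1 j (by omega) (by omega)]

theorem s1_first : s1_first_Stm := by
  intro α t h0 h1 a c u v
  have hne := one_sub_pow_ne h0 h1 (u.length + v.length + 1) (by omega)
  unfold s1
  rcases Nat.eq_zero_or_pos v.length with h | h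
  · have hv : v = [] := List.length_eq_zero_iff.1 h
    subst hv
    simp only [List.length_nil, s1f, ssum] at hne ⊢
    rw [mul_div_cancel₀ _ hne, add_zero]
  · obtain ⟨n, hn⟩ : ∃ n, v.length = n + 1 := ⟨v.length - 1, by omega⟩
    rw [hn] at hne ⊢
    simp only [s1f]
    rw [hn, mul_div_cancel₀ _ hne]
    congr 1
    apply ssum_congr
    intro v1 j v2 hv
    have hl : v1.length + v2.length + 1 = v.length := by
      rw [hv]; simp; omega
    rw [CySFirst_f1 t a u n v1.length v1 j (by omega) le_rfl]

theorem CySFirst_f2 {α : Type} (t : ℝ) (c : α) (v : List α) :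
    ∀ (n m : ℕ) (u : List α) (a : α), u.length ≤ n → u.length ≤ m →
      s2f t n a c u v = s2f t m a c u v := by
  intro n
  induction n with
  | zero =>
    intro m u a hn hm
    have hu : u = [] := List.length_eq_zero_iff.1 (Nat.le_zero.1 hn)
    subst hu
    cases m with
    | zero => rfl
    | succ m => simp [s2f, ssum]
  | succ n ih =>
    intro m u a hn hm
    cases m with
    | zero =>
      have hu : u = [] := List.length_eq_zero_iff.1 (Nat.le_zero.1 hm)
      subst hu
      simp [s2f, ssum]
    | succ m =>
      simp only [s2f]
      congr 2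
      apply ssum_congr
      intro u1 j u2 hu
      have hl : u1.length + u2.length + 1 = u.length := by
        rw [hu]; simp; omega
      rw [ih m u2 j (by omega) (by omega)]

theorem s2_first : s2_first_Stm := by
  intro α t h0 h1 a c u v
  have hne := one_sub_pow_ne h0 h1 (u.length + v.length + 1) (by omega)
  unfold s2
  rcases Nat.eq_zero_or_pos u.length with h | h
  · have hu : u = [] := List.length_eq_zero_iff.1 h
    subst hu
    simp only [List.length_nil, s2f, ssum] at hne ⊢
    rw [mul_div_cancel₀ _ hne, add_zero]
  · obtain ⟨n, hn⟩ : ∃ n, u.length = n + 1 := ⟨u.length - 1, by omega⟩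
    rw [hn] at hne ⊢
    simp only [s2f]
    rw [hn, mul_div_cancel₀ _ hne]
    congr 1
    apply ssum_congr
    intro u1 j u2 hu
    have hl : u1.length + u2.length + 1 = u.length := by
      rw [hu]; simp; omega
    rw [CySFirst_f2 t c v n u2.length u2 j (by omega) le_rfl]

end Pool.CY
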