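import Mathlib

/-! Project CY (S19209, MP_240aa8_pr): colour-symmetric 1-dependent q-colourings of cycles.
Definitions and basic API. -/

set_option autoImplicit false

namespace Pool.CY

/-- sum over all decompositions `w = u ++ j :: v` -/
noncomputable def ssum {α : Type} : List α → (List α → α → List α → ℝ) → ℝ
  | [], _ => 0
  | (a :: w), f => f [] a w + ssum w (fun u j v => f (a :: u) j v)

/-- `w` is a proper word, also towards the barriers `x` (left) and `y` (right), if nonempty -/
def okw {α : Type} (x : Option α) (w : List α) (y : Option α) : Prop :=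
  w = [] ∨ List.IsChain (· ≠ ·) (x.toList ++ w ++ y.toList)

open Classical in
/-- normalised insertion weight (last arrival recursion) with fuel -/
noncomputable def gf {α : Type} (t : ℝ) : ℕ → Option α → List α → Option α → ℝ
  | 0, _, _, _ => 1
  | (n+1), x, w, y =>
      if okw x w y then (ssum w (fun u _ v => t ^ v.length * gf t n x (u ++ v) y)) / (1 - t ^ (n+1))
      else 0

/-- normalised insertion weight of `w` between the barriers `x`, `y` -/
noncomputable def g {α : Type} (t : ℝ) (x : Option α) (w : List α) (y : Option α) : ℝ :=
  gf t w.length x w y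

open Classical in
/-- arcs: both barriers are letters and must be different -/
noncomputable def ii {α : Type} (t : ℝ) (a : α) (w : List α) (c : α) : ℝ :=
  if a = c then 0 else g t (some a) w (some c)

open Classical in
noncomputable def s1f {α : Type} (t : ℝ) : ℕ → α → α → List α → List α → ℝ
  | 0, a, c, u, v =>
      (t ^ (u.length + 1) * g t (some a) u none * g t none v (some c)) / (1 - t ^ (u.length + v.length + 1))
  | (n+1), a, c, u, v =>
      (t ^ (u.length + 1) * g t (some a) u none * g t none v (some c)
        + ssum v (fun v1 j v2 => t ^ (u.length + v1.length + 1) *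
            (if a = j then 0 else s1f t n a j u v1) * ii t j v2 c)) / (1 - t ^ (u.length + v.length + 1))

noncomputable def s1 {α : Type} (t : ℝ) (a c : α) (u v : List α) : ℝ := s1f t v.length a c u v

open Classical in
noncomputable def s2f {α : Type} (t : ℝ) : ℕ → α → α → List α → List α → ℝ
  | 0, a, c, u, v =>
      (t ^ u.length / t * g t (some a) u none * g t none v (some c)) / (1 - t ^ (u.length + v.length + 1))
  | (n+1), a, c, u, v =>
      (t ^ u.length / t * g t (some a) u none * g t none v (some c)
        + ssum u (fun u1 j u2 => t ^ u1.length * ii t a u1 j *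
            (if j = c then 0 else s2f t n j c u2 v))) / (1 - t ^ (u.length + v.length + 1))

noncomputable def s2 {α : Type} (t : ℝ) (a c : α) (u v : List α) : ℝ := s2f t u.length a c u v

/-- chains with `s` intermediate nodes -/
noncomputable def cr {α : Type} (t : ℝ) : ℕ → α → List α → α → ℝ
  | 0, a, w, c => ii t a w c
  | (s+1), a, w, c => ssum w (fun u j v => ii t a u j * cr t s j v c)

/-- the cyclic weight of a word -/
noncomputable def S {α : Type} (t : ℝ) (X : List α) : ℝ :=
  ssum X (fun u a v => ∑ s ∈ Finset.range X.length,
    (1 - (-t) ^ (s+1)) * t ^ (X.length - (s+1)) / ((s : ℝ) + 1) * cr t s a (v ++ u) a)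

/-! ### ssum API -/

theorem ssum_congr {α : Type} (w : List α) {f f' : List α → α → List α → ℝ}
    (h : ∀ u j v, w = u ++ j :: v → f u j v = f' u j v) : ssum w f = ssum w f' := by
  induction w generalizing f f' with
  | nil => rfl
  | cons a w ih =>
    simp only [ssum]
    rw [h [] a w rfl, ih (f := fun u j v => f (a :: u) j v) (f' := fun u j v => f' (a :: u) j v)
      (fun u j v e => h (a :: u) j v (by rw [e]; rfl))]

theorem ssum_append {α : Type} (w1 w2 : List α) (f : List α → α → List α → ℝ) :
    ssum (w1 ++ w2) f = ssum w1 (fun u j v => f u j (v ++ w2)) + ssum w2 (fun u j v => f (w1 ++ u) j v) := by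
  induction w1 generalizing f with
  | nil => simp [ssum]
  | cons a w ih =>
    simp only [List.cons_append, ssum]
    rw [ih]
    ring

theorem ssum_add {α : Type} (w : List α) (f f' : List α → α → List α → ℝ) :
    ssum w (fun u j v => f u j v + f' u j v) = ssum w f + ssum w f' := by
  induction w generalizing f f' with
  | nil => simp [ssum]
  | cons a w ih => simp only [ssum]; rw [ih]; ring

theorem ssum_mul {α : Type} (w : List α) (c : ℝ) (f : List α → α → List α → ℝ) :
    ssum w (fun u j v => c * f u j v) = c * ssum w f := by
  induction w generalizing f with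
  | nil => simp [ssum]
  | cons a w ih => simp only [ssum]; rw [ih]; ring

theorem ssum_zero {α : Type} (w : List α) : ssum w (fun _ _ _ => (0:ℝ)) = 0 := by
  induction w with
  | nil => rfl
  | cons a w ih => simp only [ssum]; rw [ih]; ring

theorem ssum_sum {α β : Type} (s : Finset β) (w : List α) (f : β → List α → α → List α → ℝ) :
    ssum w (fun u j v => ∑ b ∈ s, f b u j v) = ∑ b ∈ s, ssum w (f b) := by
  induction w generalizing f with
  | nil => simp [ssum]
  | cons a w ih => simp only [ssum]; rw [ih, Finset.sum_add_distrib]

/-- associativity: two marked letters -/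
theorem ssum_assoc {α : Type} (w : List α) (F : List α → α → List α → α → List α → ℝ) :
    ssum w (fun u j v => ssum v (fun v1 k v2 => F u j v1 k v2))
      = ssum w (fun u k v => ssum u (fun u1 j u2 => F u1 j u2 k v)) := by
  induction w generalizing F with
  | nil => rfl
  | cons a w ih =>
    simp only [ssum]
    rw [ih (fun u j v1 k v2 => F (a :: u) j v1 k v2), ssum_add]
    ring

theorem ssum_nonneg {α : Type} (w : List α) (f : List α → α → List α → ℝ)
    (h : ∀ u j v, w = u ++ j :: v → 0 ≤ f u j v) : 0 ≤ ssum w f := by
  induction w generalizing f with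
  | nil => exact le_rfl
  | cons a w ih =>
    exact add_nonneg (h [] a w rfl) (ih _ (fun u j v e => h (a :: u) j v (by rw [e]; rfl)))

/-- as a sum over positions -/
theorem ssum_eq_sum {α : Type} (w : List α) (f : List α → α → List α → ℝ) :
    ssum w f = ∑ p : Fin w.length, f (w.take p) (w.get p) (w.drop (p + 1)) := by
  induction w generalizing f with
  | nil => simp [ssum]
  | cons a w ih =>
    simp only [ssum]
    rw [ih]
    show _ = ∑ p : Fin (w.length + 1), f ((a :: w).take p) ((a :: w).get p) ((a :: w).drop (p + 1))
    rw [Fin.sum_univ_succ]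
    simp

/-- last arrival recursion -/
theorem g_nil {α : Type} (t : ℝ) (x y : Option α) : g t x [] y = 1 := rfl

theorem one_sub_pow_ne {t : ℝ} (h0 : 0 < t) (h1 : t < 1) (n : ℕ) (hn : n ≠ 0) : 1 - t ^ n ≠ 0 := by
  have := pow_lt_one₀ h0.le h1 hn
  linarith

theorem g_last {α : Type} {t : ℝ} (h0 : 0 < t) (h1 : t < 1) (x : Option α) (w : List α) (y : Option α)
    (hw : w ≠ []) (hok : okw x w y) :
    (1 - t ^ w.length) * g t x w y = ssum w (fun u _ v => t ^ v.length * g t x (u ++ v) y) := by
  obtain ⟨n, hn⟩ : ∃ n, w.length = n + 1 := ⟨w.length - 1, by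
    have := List.length_pos_iff.mpr hw; omega⟩
  unfold g
  rw [hn]
  simp only [gf, if_pos hok]
  rw [mul_div_cancel₀ _ (one_sub_pow_ne h0 h1 (n+1) (by omega))]
  apply ssum_congr
  intro u j v e
  have : (u ++ v).length = n := by
    have := congrArg List.length e
    simp at this ⊢
    omega
  rw [this]

theorem g_bad {α : Type} (t : ℝ) (x : Option α) (w : List α) (y : Option α) (hok : ¬ okw x w y) :
    g t x w y = 0 := by
  obtain ⟨n, hn⟩ : ∃ n, w.length = n + 1 := ⟨w.length - 1, by
    have : w ≠ [] := fun h => hok (Or.inl h)
    have := List.length_pos_iff.mpr this; omega⟩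
  unfold g
  rw [hn]
  simp only [gf, if_neg hok]

end Pool.CY
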