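import Pool.Agent.C621.Defs

/-! Project CY: position matrices of a fixed word. -/

set_option autoImplicit false

namespace Pool.CY

open Classical in
/-- arcs inside the word `x` -/
noncomputable def U {α : Type} (t : ℝ) (x : List α) : Matrix (Fin x.length) (Fin x.length) ℝ :=
  fun p p' => if (p : ℕ) < p' then
    ii t (x.get p) ((x.drop (p + 1)).take (p' - (p + 1))) (x.get p') else 0

noncomputable def U1 {α : Type} (t : ℝ) (x : List α) : Matrix (Fin x.length) (Fin x.length) ℝ :=
  fun p p' => t ^ ((p' : ℕ) - (p + 1)) * U t x p p'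

open Classical in
noncomputable def W {α : Type} (t : ℝ) (x : List α) : Matrix (Fin x.length) (Fin x.length) ℝ :=
  fun p p' => if x.get p = x.get p' then 0 else
    s1 t (x.get p) (x.get p') (x.drop (p + 1)) (x.take p')

noncomputable def W1 {α : Type} (t : ℝ) (x : List α) : Matrix (Fin x.length) (Fin x.length) ℝ :=
  fun p p' => t ^ (x.length - p + p') * W t x p p'

open Classical in
noncomputable def X {α : Type} (t : ℝ) (x : List α) : Matrix (Fin x.length) (Fin x.length) ℝ :=
  fun p p' => if x.get p = x.get p' then 0 else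
    s2 t (x.get p) (x.get p') (x.drop (p + 1)) (x.take p')

noncomputable def X1 {α : Type} (t : ℝ) (x : List α) : Matrix (Fin x.length) (Fin x.length) ℝ :=
  fun p p' => t ^ (x.length - p + p') * X t x p p'

/-- arc from position `p` to a letter `b` right of `x` -/
noncomputable def cv {α : Type} (t : ℝ) (x : List α) (b : α) : Fin x.length → ℝ :=
  fun p => ii t (x.get p) (x.drop (p + 1)) b

/-- arc from a letter `b` left of `x` to position `p` -/
noncomputable def ev {α : Type} (t : ℝ) (x : List α) (b : α) : Fin x.length → ℝ :=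
  fun p => ii t b (x.take p) (x.get p)

noncomputable def cv1 {α : Type} (t : ℝ) (x : List α) (b : α) : Fin x.length → ℝ :=
  fun p => t ^ (x.length - (p + 1)) * cv t x b p

noncomputable def ev1 {α : Type} (t : ℝ) (x : List α) (b : α) : Fin x.length → ℝ :=
  fun p => t ^ (p : ℕ) * ev t x b p

noncomputable def r0 {α : Type} (t : ℝ) (x : List α) : Fin x.length → ℝ :=
  fun p => g t none (x.take p) (some (x.get p))

noncomputable def l0 {α : Type} (t : ℝ) (x : List α) : Fin x.length → ℝ :=
  fun p => g t (some (x.get p)) (x.drop (p + 1)) none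

noncomputable def r1 {α : Type} (t : ℝ) (x : List α) : Fin x.length → ℝ :=
  fun p => t ^ (p : ℕ) * r0 t x p

noncomputable def l1 {α : Type} (t : ℝ) (x : List α) : Fin x.length → ℝ :=
  fun p => t ^ (x.length - (p + 1)) * l0 t x p

/-- `∑_b c^b ⊗ e^b` -/
noncomputable def Qm {α : Type} [Fintype α] (t : ℝ) (x : List α) :
    Matrix (Fin x.length) (Fin x.length) ℝ :=
  fun p p' => ∑ b, cv t x b p * ev t x b p'

noncomputable def Qm1 {α : Type} [Fintype α] (t : ℝ) (x : List α) :
    Matrix (Fin x.length) (Fin x.length) ℝ :=
  fun p p' => ∑ b, cv1 t x b p * ev1 t x b p'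

/-- arc from `p` over the inserted letter `b` (right end = left end of `x`) to `p'` -/
noncomputable def MB {α : Type} (t : ℝ) (x : List α) (b : α) :
    Matrix (Fin x.length) (Fin x.length) ℝ :=
  fun p p' => ii t (x.get p) (x.drop (p + 1) ++ b :: x.take p') (x.get p')

end Pool.CY
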