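import Mathlib

/-! Project CY: the probabilistic interface. -/

set_option autoImplicit false

namespace Pool.CY

/-- interface between the combinatorics and the probability -/
def HasCyc (q : ℕ) : Prop :=
  ∃ (B : List (Fin q) → ℝ) (C : ℕ → ℕ → ℝ) (T : List (Fin q) → ℝ) (c : ℕ → ℝ),
    B [] = 1 ∧ (∀ w, 0 ≤ B w) ∧ (∀ k l, 0 < C k l) ∧
    (∀ u v, ∑ b, B (u ++ b :: v) = C u.length v.length * (B u * B v)) ∧
    (∀ w, 0 ≤ T w) ∧ (∀ a w, T (w ++ [a]) = T (a :: w)) ∧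
    (∀ (σ : Equiv.Perm (Fin q)) w, T (w.map σ) = T w) ∧
    (∀ w, ¬ List.IsChain (· ≠ ·) w → T w = 0) ∧
    (∀ n, 2 ≤ n → 0 < c n) ∧
    (∀ w, 2 ≤ w.length → ∑ b, T (w ++ [b]) = c w.length * B w)

open Classical in
/-- weights of a `k`-dependent colour-symmetric proper colouring of the `n`-cycle -/
def IsDep (n q k : ℕ) (T : (Fin n → Fin q) → ℝ) : Prop :=
  (∀ x, 0 ≤ T x) ∧ 0 < ∑ x, T x ∧
  (∀ x, (∃ i j, (SimpleGraph.cycleGraph n).Adj i j ∧ x i = x j) → T x = 0) ∧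
  (∀ (σ : Equiv.Perm (Fin q)) (x : Fin n → Fin q), T (σ ∘ x) = T x) ∧
  (∀ (A B : Set (Fin n)), (∀ a ∈ A, ∀ b ∈ B, k < (SimpleGraph.cycleGraph n).dist a b) →
    ∀ (y z : Fin n → Fin q),
      (∑ x ∈ Finset.univ.filter (fun x : Fin n → Fin q => (∀ a ∈ A, x a = y a) ∧ ∀ b ∈ B, x b = z b), T x)
        * (∑ x, T x)
      = (∑ x ∈ Finset.univ.filter (fun x : Fin n → Fin q => ∀ a ∈ A, x a = y a), T x)
        * (∑ x ∈ Finset.univ.filter (fun x : Fin n → Fin q => ∀ b ∈ B, x b = z b), T x))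

end Pool.CY
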