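import Pool.Agent.C621.Mat

/-! Project CY: the statements of the parts. -/

set_option autoImplicit false
open Matrix
namespace Pool.CY

open Classical in
def g_first_Stm : Prop :=
  ∀ (α : Type) {t : ℝ} (h0 : 0 < t) (h1 : t < 1) (x : Option α) (w : List α) (y : Option α),
    (1 - t ^ w.length) * g t x w y = ssum w (fun u j v => t ^ u.length *
      (if x = some j then 0 else g t x u (some j)) * (if y = some j then 0 else g t (some j) v y))

def g_nonneg_Stm : Prop :=
  ∀ (α : Type) {t : ℝ} (h0 : 0 < t) (h1 : t < 1) (x : Option α) (w : List α) (y : Option α),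
    0 ≤ g t x w y

def g_map_Stm : Prop :=
  ∀ (α : Type) (t : ℝ) (σ : Equiv.Perm α) (x : Option α) (w : List α) (y : Option α),
    g t (x.map σ) (w.map σ) (y.map σ) = g t x w y

def path_sum_Stm : Prop :=
  ∀ (α : Type) [Fintype α] {t : ℝ} (h0 : 0 < t) (h1 : t < 1)
    (hq : (Fintype.card α : ℝ) = t + 1 / t + 2) (u v : List α),
    ∑ b : α, g t none (u ++ b :: v) none =
      (1 + 1 / t) * (1 - t ^ (u.length + v.length + 2)) / ((1 - t ^ (u.length + 1)) * (1 - t ^ (v.length + 1)))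
        * (g t none u none * g t none v none)

open Classical in
def s1_first_Stm : Prop :=
  ∀ (α : Type) {t : ℝ} (h0 : 0 < t) (h1 : t < 1) (a c : α) (u v : List α),
    (1 - t ^ (u.length + v.length + 1)) * s1 t a c u v =
      t ^ (u.length + 1) * g t (some a) u none * g t none v (some c)
        + ssum v (fun v1 j v2 => t ^ (u.length + v1.length + 1) *
            (if a = j then 0 else s1 t a j u v1) * ii t j v2 c)

open Classical in
def s2_first_Stm : Prop :=
  ∀ (α : Type) {t : ℝ} (h0 : 0 < t) (h1 : t < 1) (a c : α) (u v : List α),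
    (1 - t ^ (u.length + v.length + 1)) * s2 t a c u v =
      t ^ u.length / t * g t (some a) u none * g t none v (some c)
        + ssum u (fun u1 j u2 => t ^ u1.length * ii t a u1 j *
            (if j = c then 0 else s2 t j c u2 v))

open Classical in
def s1_last_Stm : Prop :=
  ∀ (α : Type) {t : ℝ} (h0 : 0 < t) (h1 : t < 1) (a c : α) (u v : List α)
    (hu : okw (some a) u none) (hv : okw none v (some c)),
    (1 - t ^ (u.length + v.length + 1)) * s1 t a c u v =
      ssum u (fun u1 _ u2 => t ^ (u2.length + v.length + 1) * s1 t a c (u1 ++ u2) v)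
      + ssum v (fun v1 _ v2 => t ^ v2.length * s1 t a c u (v1 ++ v2))
      + (if u = [] then t ^ (v.length + 1) * g t (some a) v (some c) else 0)

def s1_bad_Stm : Prop :=
  ∀ (α : Type) {t : ℝ} (h0 : 0 < t) (h1 : t < 1) (a c : α) (u v : List α)
    (h : ¬ (okw (some a) u none ∧ okw none v (some c))),
    s1 t a c u v = 0

open Classical in
def s2_last_Stm : Prop :=
  ∀ (α : Type) {t : ℝ} (h0 : 0 < t) (h1 : t < 1) (a c : α) (u v : List α)
    (hu : okw (some a) u none) (hv : okw none v (some c)),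
    (1 - t ^ (u.length + v.length + 1)) * s2 t a c u v =
      ssum u (fun u1 _ u2 => t ^ (u2.length + v.length + 1) * s2 t a c (u1 ++ u2) v)
      + ssum v (fun v1 _ v2 => t ^ v2.length * s2 t a c u (v1 ++ v2))
      + (if v = [] then 1 / t * g t (some a) u (some c) else 0)

def s2_bad_Stm : Prop :=
  ∀ (α : Type) {t : ℝ} (h0 : 0 < t) (h1 : t < 1) (a c : α) (u v : List α)
    (h : ¬ (okw (some a) u none ∧ okw none v (some c))),
    s2 t a c u v = 0

open Classical in
def d_last_Stm : Prop :=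
  ∀ (α : Type) [Fintype α] {t : ℝ} (h0 : 0 < t) (h1 : t < 1)
    (hq : (Fintype.card α : ℝ) = t + 1 / t + 2) (a c : α) (u v : List α)
    (hu : okw (some a) u none) (hv : okw none v (some c)),
    (1 - t ^ (u.length + v.length + 1)) * (∑ b : α, g t (some a) (u ++ b :: v) (some c)) =
      ssum u (fun u1 _ u2 => t ^ (u2.length + v.length + 1) *
        ∑ b : α, g t (some a) ((u1 ++ u2) ++ b :: v) (some c))
      + ssum v (fun v1 _ v2 => t ^ v2.length * ∑ b : α, g t (some a) (u ++ b :: (v1 ++ v2)) (some c))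
      + (if u = [] then t ^ (v.length + 1) * g t (some a) v (some c) else 0)
      + (if v = [] then 1 / t * g t (some a) u (some c) else 0)
      + (if u = [] ∧ v = [] ∧ a = c then 1 else 0)

def d_bad_Stm : Prop :=
  ∀ (α : Type) [Fintype α] (t : ℝ) (a c : α) (u v : List α)
    (h : ¬ (okw (some a) u none ∧ okw none v (some c))),
    ∑ b : α, g t (some a) (u ++ b :: v) (some c) = 0

open Classical in
def d_eq_Stm : Prop :=
  ∀ (α : Type) [Fintype α] {t : ℝ} (h0 : 0 < t) (h1 : t < 1)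
    (hq : (Fintype.card α : ℝ) = t + 1 / t + 2) (a c : α) (u v : List α),
    ∑ b : α, g t (some a) (u ++ b :: v) (some c) = s1 t a c u v + s2 t a c u v +
      (if a = c then t ^ u.length * g t (some a) u none * g t none v (some c)
        / (1 - t ^ (u.length + v.length + 1)) else 0)

open Classical in
def Vplus_Stm : Prop :=
  ∀ (α : Type) [Fintype α] {t : ℝ} (h0 : 0 < t) (h1 : t < 1)
    (hq : (Fintype.card α : ℝ) = t + 1 / t + 2) (a c : α) (u v : List α),
    ssum u (fun u1 j u2 => t ^ u1.length * ii t a u1 j * (if j = c then 0 else s1 t j c u2 v))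
      + t ^ u.length * ∑ b : α, ii t a u b * ii t b v c
      + ssum v (fun v1 j v2 => t ^ (u.length + 1 + v1.length) *
          (if a = j then 0 else s2 t a j u v1) * ii t j v2 c)
      = (t + 1 / t + if a = c then 1 else 0) * t ^ u.length *
          (g t (some a) u none * g t none v (some c))

def rel_E_Stm : Prop :=
  ∀ (α : Type) {t : ℝ} (h0 : 0 < t) (h1 : t < 1) (x : List α) (p p' : Fin x.length)
    (h : x.get p ≠ x.get p'),
    ((1 - U1 t x) * (1 + U t x)) p p' = 0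

def rel_R_Stm : Prop :=
  ∀ (α : Type) {t : ℝ} (h0 : 0 < t) (h1 : t < 1) (x : List α),
    r1 t x ᵥ* (1 + U t x) = r0 t x

def rel_L_Stm : Prop :=
  ∀ (α : Type) {t : ℝ} (h0 : 0 < t) (h1 : t < 1) (x : List α),
    (1 - U1 t x) *ᵥ l0 t x = l1 t x

def rel_c_Stm : Prop :=
  ∀ (α : Type) {t : ℝ} (h0 : 0 < t) (h1 : t < 1) (x : List α) (b : α) (p : Fin x.length)
    (h : x.get p ≠ b),
    ((1 - U1 t x) *ᵥ cv t x b) p = cv1 t x b p

def rel_e_Stm : Prop :=
  ∀ (α : Type) {t : ℝ} (h0 : 0 < t) (h1 : t < 1) (x : List α) (b : α) (p : Fin x.length)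
    (h : x.get p ≠ b),
    (ev1 t x b ᵥ* (1 + U t x)) p = ev t x b p

def rel_W_Stm : Prop :=
  ∀ (α : Type) {t : ℝ} (h0 : 0 < t) (h1 : t < 1) (x : List α) (p p' : Fin x.length)
    (h : x.get p ≠ x.get p'),
    W t x p p' = t * l1 t x p * r0 t x p' + (W1 t x * (1 + U t x)) p p'

def rel_X_Stm : Prop :=
  ∀ (α : Type) {t : ℝ} (h0 : 0 < t) (h1 : t < 1) (x : List α) (p p' : Fin x.length)
    (h : x.get p ≠ x.get p'),
    ((1 - U1 t x) * X t x) p p' = 1 / t * l1 t x p * r0 t x p' + X1 t x p p'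

open Classical in
def rel_V_Stm : Prop :=
  ∀ (α : Type) [Fintype α] {t : ℝ} (h0 : 0 < t) (h1 : t < 1)
    (hq : (Fintype.card α : ℝ) = t + 1 / t + 2) (x : List α) (p p' : Fin x.length),
    (U1 t x * W t x) p p' + t ^ (x.length - (p + 1)) * Qm t x p p' + (X1 t x * U t x) p p'
      = (t + 1 / t + if x.get p = x.get p' then 1 else 0) * l1 t x p * r0 t x p'

def rel_b_Stm : Prop :=
  ∀ (α : Type) {t : ℝ} (h0 : 0 < t) (h1 : t < 1) (x : List α),
    r1 t x ⬝ᵥ l0 t x = (1 - t ^ x.length) * g t none x none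

def U_pow_zero_Stm : Prop :=
  ∀ (α : Type) (t : ℝ) (x : List α),
    U t x ^ x.length = 0

def cr_mid_Stm : Prop :=
  ∀ (α : Type) (t : ℝ) (x : List α) (s : ℕ) (p p' : Fin x.length) (h : (p : ℕ) < p'),
    cr t s (x.get p) ((x.drop (p + 1)).take (p' - (p + 1))) (x.get p') = (U t x ^ (s + 1)) p p'

def cr_left_Stm : Prop :=
  ∀ (α : Type) (t : ℝ) (x : List α) (s : ℕ) (b : α) (p' : Fin x.length),
    cr t s b (x.take p') (x.get p') = (ev t x b ᵥ* (U t x ^ s)) p'

def cr_full_Stm : Prop :=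
  ∀ (α : Type) (t : ℝ) (x : List α) (s : ℕ) (b : α),
    cr t (s + 1) b x b = (ev t x b ᵥ* (U t x ^ s)) ⬝ᵥ cv t x b

def cr_wrap_Stm : Prop :=
  ∀ (α : Type) (t : ℝ) (x : List α) (b : α) (s : ℕ) (p p' : Fin x.length),
    cr t s (x.get p) (x.drop (p + 1) ++ b :: x.take p') (x.get p') =
      (∑ i ∈ Finset.range (s + 1), U t x ^ i * MB t x b * U t x ^ (s - i)) p p'
      + (∑ i ∈ Finset.range s, U t x ^ i * vecMulVec (cv t x b) (ev t x b) * U t x ^ (s - 1 - i)) p p'

def S_snoc_Stm : Prop :=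
  ∀ (α : Type) (t : ℝ) (x : List α) (b : α),
    S t (x ++ [b]) = ∑ s ∈ Finset.range (x.length + 1), (1 - (-t) ^ (s+1)) * t ^ (x.length - s) *
      (trace (U t x ^ s * MB t x b) +
        if s = 0 then 0 else trace (U t x ^ (s - 1) * vecMulVec (cv t x b) (ev t x b)))

def sum_MB_Stm : Prop :=
  ∀ (α : Type) [Fintype α] {t : ℝ} (h0 : 0 < t) (h1 : t < 1)
    (hq : (Fintype.card α : ℝ) = t + 1 / t + 2) (x : List α),
    ∑ b : α, MB t x b = W t x + X t x

def one_letter_Stm : Prop :=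
  ∀ (α : Type) [Fintype α] {t : ℝ} (h0 : 0 < t) (h1 : t < 1)
    (hq : (Fintype.card α : ℝ) = t + 1 / t + 2) (x : List α),
    ∑ b : α, S t (x ++ [b]) =
      (1 + 1 / t) * (1 - t ^ (x.length + 2)) * (1 - t ^ x.length) * g t none x none

def S_rotate_Stm : Prop :=
  ∀ (α : Type) (t : ℝ) (a : α) (y : List α),
    S t (y ++ [a]) = S t (a :: y)

def S_nonneg_Stm : Prop :=
  ∀ (α : Type) {t : ℝ} (h0 : 0 < t) (h1 : t < 1) (x : List α),
    0 ≤ S t x

def S_map_Stm : Prop :=
  ∀ (α : Type) (t : ℝ) (σ : Equiv.Perm α) (x : List α),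
    S t (x.map σ) = S t x

open Classical in
/-- abstract linear algebra -/
def core_Stm : Prop :=
  ∀ (ι κ : Type) [Fintype ι] [DecidableEq ι] [Fintype κ] (col : ι → κ)
    (t : ℝ) (U U1 W W1 X X1 Ai Bi : Matrix ι ι ℝ) (r0 r1 l0 l1 : ι → ℝ)
    (c c1 e e1 : κ → ι → ℝ) (s : ι → ℝ),
    (1 + U) * Ai = 1 → (1 - U1) * Bi = 1 →
    (∀ p p', col p = col p' → U p p' = 0) → (∀ p p', col p = col p' → U1 p p' = 0) →
    (∀ p p', col p = col p' → W p p' = 0) → (∀ p p', col p = col p' → W1 p p' = 0) →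
    (∀ p p', col p = col p' → X p p' = 0) → (∀ p p', col p = col p' → X1 p p' = 0) →
    (∀ b p, col p = b → c b p = 0) → (∀ b p, c1 b p = s p * c b p) →
    (∀ b p, col p = b → e b p = 0) → (∀ b p, col p = b → e1 b p = 0) →
    (∀ p p', col p ≠ col p' → ((1 - U1) * (1 + U)) p p' = 0) →
    (r1 ᵥ* (1 + U) = r0) → ((1 - U1) *ᵥ l0 = l1) →
    (∀ b p, col p ≠ b → ((1 - U1) *ᵥ c b) p = c1 b p) →
    (∀ b p, col p ≠ b → (e1 b ᵥ* (1 + U)) p = e b p) →
    (∀ p p', col p ≠ col p' → W p p' = t * l1 p * r0 p' + (W1 * (1 + U)) p p') →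
    (∀ p p', col p ≠ col p' → ((1 - U1) * X) p p' = 1 / t * l1 p * r0 p' + X1 p p') →
    (∀ p p', (U1 * W) p p' + s p * (∑ b, c b p * e b p') + (X1 * U) p p'
      = (t + 1 / t + if col p = col p' then 1 else 0) * l1 p * r0 p') →
    trace (Ai * (Matrix.of (fun p p' => ∑ b, c b p * e b p') - W - X))
        = (1 + t) * (r1 ⬝ᵥ l0) + 1 / t * (r0 ⬝ᵥ l0)
    ∧ trace (Bi * (W1 + X1)) + trace (Bi * (Matrix.of (fun p p' => ∑ b, c1 b p * e1 b p')))
        = (1 + 1 / t) * (r1 ⬝ᵥ l0) + t * (r1 ⬝ᵥ l1)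

def S_improper_Stm : Prop :=
  ∀ (α : Type) (t : ℝ) (x : List α), ¬ List.IsChain (· ≠ ·) x → S t x = 0

end Pool.CY
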