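import Pool.Agent.C621.Prob

/-! Project CY: the statements of the probabilistic parts. -/

set_option autoImplicit false
open MeasureTheory ProbabilityTheory
namespace Pool.CY

open Classical in
def path_indep_Stm : Prop :=
  ∀ (q : ℕ) (B : List (Fin q) → ℝ) (C : ℕ → ℕ → ℝ) (hB1 : B [] = 1)
    (hC : ∀ k l, 0 < C k l)
    (hB : ∀ u v, ∑ b, B (u ++ b :: v) = C u.length v.length * (B u * B v))
    (N : ℕ) (A A' : Set (Fin N)) (hA : ∀ a ∈ A, ∀ b ∈ A', (a : ℕ) + 1 < b ∨ (b : ℕ) + 1 < a)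
    (y z : Fin N → Fin q),
    (∑ x ∈ Finset.univ.filter (fun x : Fin N → Fin q => (∀ a ∈ A, x a = y a) ∧ ∀ b ∈ A', x b = z b),
        B (List.ofFn x)) * (∑ x : Fin N → Fin q, B (List.ofFn x))
      = (∑ x ∈ Finset.univ.filter (fun x : Fin N → Fin q => ∀ a ∈ A, x a = y a), B (List.ofFn x))
        * (∑ x ∈ Finset.univ.filter (fun x : Fin N → Fin q => ∀ b ∈ A', x b = z b), B (List.ofFn x))

def exists_gap_Stm : Prop :=
  ∀ (n : ℕ) (hn : 3 ≤ n) (A B : Set (Fin n)) (hA : A.Nonempty) (hB : B.Nonempty)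
    (h : ∀ a ∈ A, ∀ b ∈ B, 1 < (SimpleGraph.cycleGraph n).dist a b),
    ∃ j, j ∉ A ∧ j ∉ B

def exists_isDep_of_hasCyc_Stm : Prop :=
  ∀ (q : ℕ) (h : HasCyc q) (n : ℕ) (hn : 3 ≤ n),
    ∃ T, IsDep n q 1 T

def isDep_mono_Stm : Prop :=
  ∀ (n q k k' : ℕ) (hk : k ≤ k') (T : (Fin n → Fin q) → ℝ) (h : IsDep n q k T),
    IsDep n q k' T

def isDep_three_Stm : Prop :=
  ∀ (n : ℕ) (hn : 3 ≤ n) (T : (Fin n → Fin 4) → ℝ) (h : IsDep n 4 1 T),
    ∃ T', IsDep n 3 3 T'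

def measure_of_isDep_Stm : Prop :=
  ∀ (n q k : ℕ) (T : (Fin n → Fin q) → ℝ) (h : IsDep n q k T),
    ∃ μ : Measure (Fin n → Fin q), IsProbabilityMeasure μ ∧
      (∀ᵐ x ∂μ, ∀ i j : Fin n, (SimpleGraph.cycleGraph n).Adj i j → x i ≠ x j) ∧
      (∀ σ : Equiv.Perm (Fin q), μ.map (fun x : Fin n → Fin q => σ ∘ x) = μ) ∧
      (∀ A B : Set (Fin n),
        (∀ a ∈ A, ∀ b ∈ B, k < (SimpleGraph.cycleGraph n).dist a b) →
        IndepFun (fun x : Fin n → Fin q => fun a : A => x a)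
          (fun x : Fin n → Fin q => fun b : B => x b) μ)

def hasCyc_4_Stm : Prop := HasCyc 4

end Pool.CY
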